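import Pool.Agent.H534R3.UD

/-! # Exponential sums over the translates by fractions with the denominator `b ^ l - 1` -/

set_option autoImplicit false

namespace Pool.Agent.N304.NT

open Finset Filter Topology
open scoped Real
open Pool.Agent.H534R3.UDist (ee norm_ee)

theorem ee_add (s t : ℝ) : ee (s + t) = ee s * ee t := by
  rw [ee, ee, ee, ← Complex.exp_add]
  congr 1
  push_cast
  ring

theorem ee_zero : ee 0 = 1 := by simp [ee]

theorem ee_int (n : ℤ) : ee n = 1 := by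
  rw [ee]
  have : (2 * π * Complex.I * ((n : ℝ) : ℂ) : ℂ) = n * (2 * π * Complex.I) := by
    push_cast
    ring
  rw [this, Complex.exp_int_mul_two_pi_mul_I]

theorem ee_add_int (t : ℝ) (n : ℤ) : ee (t + n) = ee t := by
  rw [ee_add, ee_int, mul_one]

theorem ee_congr {s t : ℝ} (n : ℤ) (h : s = t + n) : ee s = ee t := by
  rw [h, ee_add_int]

theorem ee_pow (t : ℝ) (n : ℕ) : ee t ^ n = ee (n * t) := by
  induction n with
  | zero => simp [ee_zero]
  | succ n ih =>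
    rw [pow_succ, ih, ← ee_add]
    congr 1
    push_cast
    ring

theorem chord_eq (t : ℝ) : ‖ee t - 1‖ = 2 * |Real.sin (π * t)| := by
  have h := Complex.norm_exp_I_mul_ofReal_sub_one (2 * π * t)
  have e1 : (Complex.I * ((2 * π * t : ℝ) : ℂ)) = 2 * π * Complex.I * t := by
    push_cast
    ring
  rw [e1] at h
  rw [ee, h]
  have e2 : 2 * π * t / 2 = π * t := by ring
  rw [e2, Real.norm_eq_abs, abs_mul, abs_two]

theorem chord_neg (t : ℝ) : ‖ee (-t) - 1‖ = ‖ee t - 1‖ := by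
  rw [chord_eq, chord_eq, mul_neg, Real.sin_neg, abs_neg]

theorem chord_le (t : ℝ) : ‖ee t - 1‖ ≤ 2 * π * |t| := by
  rw [chord_eq]
  have h : |Real.sin (π * t)| ≤ |π * t| := Real.abs_sin_le_abs
  rw [abs_mul, abs_of_pos Real.pi_pos] at h
  linarith

theorem chord_le_two (t : ℝ) : ‖ee t - 1‖ ≤ 2 := by
  rw [chord_eq]
  have h := Real.abs_sin_le_one (π * t)
  linarith

theorem chord_ge {t : ℝ} (ht : |t| ≤ 1 / 2) : 4 * |t| ≤ ‖ee t - 1‖ := by
  rw [chord_eq]
  have hp := Real.pi_pos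
  have h1 : π * |t| ≤ π / 2 := by nlinarith
  have h2 := Real.mul_le_sin (x := π * |t|) (by positivity) h1
  have e : 2 / π * (π * |t|) = 2 * |t| := by
    field_simp
  rw [e] at h2
  have h3 : Real.sin (π * |t|) ≤ |Real.sin (π * t)| := by
    rcases abs_cases t with ⟨h4, _⟩ | ⟨h4, _⟩
    · rw [h4]
      exact le_abs_self _
    · rw [h4, mul_neg, Real.sin_neg]
      exact neg_le_abs _
  linarith

/-- a lower bound by the distance to the integers -/
theorem chord_dist {t η : ℝ} (h : ∀ k : ℤ, η ≤ |t - k|) : 4 * η ≤ ‖ee t - 1‖ := by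
  have h1 : |t - round t| ≤ 1 / 2 := abs_sub_round t
  have h2 := chord_ge h1
  have h3 : ee t = ee (t - round t) := ee_congr (round t) (by ring)
  rw [h3]
  have := h (round t)
  linarith

theorem one_le_abs_of {b : ℕ} {s : ℤ} (hs : ¬ (b : ℤ) ∣ s) : (1 : ℝ) ≤ |(s : ℝ)| := by
  have hs0 : s ≠ 0 := by
    rintro rfl
    exact hs (dvd_zero _)
  have : 1 ≤ |s| := Int.one_le_abs hs0
  exact_mod_cast this

/-- the frequencies `s b ^ k` are either small or far from all multiples of `b ^ l - 1` -/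
theorem near_or_far (b l k H : ℕ) (hb : 2 ≤ b) (s : ℤ) (hs : ¬ (b : ℤ) ∣ s)
    (hk : k < l) (hH : H + 1 = b ^ l) (hsH : 2 * |(s : ℝ)| ≤ H) :
    |(s : ℝ) * (b : ℝ) ^ k / H| ≤ 1 / 2 ∨
      ∀ z : ℤ, 1 / (8 * |(s : ℝ)|) ≤ |(s : ℝ) * (b : ℝ) ^ k / H - z| := by
  have hs1 := one_le_abs_of hs
  have hHR : (0 : ℝ) < H := by linarith
  have hbR : (2 : ℝ) ≤ b := by exact_mod_cast hb
  have hHb : (H : ℝ) + 1 = (b : ℝ) ^ l := by exact_mod_cast hH
  rcases le_or_gt |(s : ℝ) * (b : ℝ) ^ k / H| (1 / 2) with h | h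
  · exact Or.inl h
  · right
    obtain ⟨j, hj⟩ : ∃ j, l = k + j ∧ 1 ≤ j := ⟨l - k, by omega, by omega⟩
    obtain ⟨hlj, hj1⟩ := hj
    have hbj : (0 : ℝ) < (b : ℝ) ^ j := by positivity
    have hprod : (b : ℝ) ^ k * (b : ℝ) ^ j = H + 1 := by
      rw [← pow_add, ← hlj, hHb]
    have hH1 : (1 : ℝ) ≤ H := by linarith
    have hbig : (b : ℝ) ^ j ≤ 4 * |(s : ℝ)| := by
      have h1 : (H : ℝ) / 2 < |(s : ℝ)| * (b : ℝ) ^ k := by
        rw [abs_div, abs_mul, abs_of_pos (by positivity : (0 : ℝ) < (b : ℝ) ^ k),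
          abs_of_pos hHR, lt_div_iff₀ hHR] at h
        linarith
      have h2 : (H : ℝ) / 2 * (b : ℝ) ^ j ≤ |(s : ℝ)| * (H + 1) := by
        calc (H : ℝ) / 2 * (b : ℝ) ^ j ≤ |(s : ℝ)| * (b : ℝ) ^ k * (b : ℝ) ^ j :=
              mul_le_mul_of_nonneg_right h1.le hbj.le
          _ = _ := by rw [mul_assoc, hprod]
      have h3 : |(s : ℝ)| * (H + 1) ≤ |(s : ℝ)| * (2 * H) :=
        mul_le_mul_of_nonneg_left (by linarith) (abs_nonneg _)
      have h4 : (H : ℝ) * (b : ℝ) ^ j ≤ H * (4 * |(s : ℝ)|) := by linarith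
      exact le_of_mul_le_mul_left h4 hHR
    intro z
    have h1 : (b : ℝ) ^ j * ((s : ℝ) * (b : ℝ) ^ k / H - z) =
        ((s - z * (b : ℤ) ^ j : ℤ) : ℝ) + s / H := by
      push_cast
      field_simp
      have : (s : ℝ) * (b : ℝ) ^ j * (b : ℝ) ^ k = s * (H + 1) := by
        rw [mul_assoc, mul_comm ((b : ℝ) ^ j), hprod]
      linarith
    have h2 : s - z * (b : ℤ) ^ j ≠ 0 := by
      intro h3
      apply hs
      have h4 : s = z * (b : ℤ) ^ j := by linarith
      rw [h4]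
      exact (dvd_pow_self (b : ℤ) (by omega)).mul_left z
    have h3 : (1 : ℝ) ≤ |((s - z * (b : ℤ) ^ j : ℤ) : ℝ)| := by
      have := Int.one_le_abs h2
      exact_mod_cast this
    have h4 : |(s : ℝ) / H| ≤ 1 / 2 := by
      rw [abs_div, abs_of_pos hHR, div_le_iff₀ hHR]
      linarith
    have h5 : 1 / 2 ≤ |(b : ℝ) ^ j * ((s : ℝ) * (b : ℝ) ^ k / H - z)| := by
      rw [h1]
      have := abs_sub_abs_le_abs_sub ((s - z * (b : ℤ) ^ j : ℤ) : ℝ) (-((s : ℝ) / H))
      rw [abs_neg, sub_neg_eq_add] at this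
      linarith
    rw [abs_mul, abs_of_pos hbj] at h5
    rw [div_le_iff₀ (by positivity)]
    have h6 := mul_le_mul_of_nonneg_right hbig (abs_nonneg ((s : ℝ) * (b : ℝ) ^ k / H - z))
    linarith

/-- the sum over an initial interval -/
noncomputable def DK (H K : ℕ) (t : ℤ) : ℂ := ∑ u ∈ range K, ee (-((t : ℝ) * u / H))

theorem DK_geom (H K : ℕ) (t : ℤ) :
    (ee (-((t : ℝ) / H)) - 1) * DK H K t = ee (-((t : ℝ) * K / H)) - 1 := by
  have h1 : ∀ u : ℕ, ee (-((t : ℝ) * u / H)) = ee (-((t : ℝ) / H)) ^ u := by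
    intro u
    rw [ee_pow]
    congr 1
    ring
  unfold DK
  rw [h1 K]
  simp only [h1]
  induction K with
  | zero => simp
  | succ k ih =>
    rw [sum_range_succ, mul_add, ih]
    ring

theorem norm_DK_le (H K : ℕ) (t : ℤ) : ‖DK H K t‖ ≤ K := by
  unfold DK
  refine (norm_sum_le _ _).trans (le_of_eq ?_)
  simp only [norm_ee, sum_const, card_range, nsmul_eq_mul, mul_one]

theorem DK_mul (H K : ℕ) (t : ℤ) : ‖ee ((t : ℝ) / H) - 1‖ * ‖DK H K t‖ ≤ 2 := by
  have h := congrArg norm (DK_geom H K t)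
  rw [norm_mul, chord_neg] at h
  rw [h]
  exact chord_le_two _

section
variable (b l k H : ℕ) (hb : 2 ≤ b) (s : ℤ) (hs : ¬ (b : ℤ) ∣ s) (hk : k < l)
  (hH : H + 1 = b ^ l) (hsH : 2 * |(s : ℝ)| ≤ H)

include hb hk hH in
theorem pow_le_H : (b : ℝ) ^ k ≤ H := by
  have h1 : b ^ k < b ^ l := Nat.pow_lt_pow_right (by omega) hk
  have h2 : b ^ k ≤ H := by omega
  exact_mod_cast h2

include hb hs hk hH hsH in
theorem DK_both (K : ℕ) (θ : ℝ) (h0 : 0 ≤ θ) (h1 : θ ≤ 1) :
    ‖DK H K (s * (b : ℤ) ^ k)‖ ≤ 4 * |(s : ℝ)| / (b : ℝ) ^ k * H ∧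
    ‖ee (-((s : ℝ) * (b : ℝ) ^ k * θ / H)) - 1‖ * ‖DK H K (s * (b : ℤ) ^ k)‖ ≤ 8 * |(s : ℝ)| ∧
    ee ((s : ℝ) * (b : ℝ) ^ k / H) ≠ 1 := by
  have hs1 := one_le_abs_of hs
  have hHR : (0 : ℝ) < H := by linarith
  have hbR : (2 : ℝ) ≤ b := by exact_mod_cast hb
  have hbk : (0 : ℝ) < (b : ℝ) ^ k := by positivity
  have hle := pow_le_H b l k H hb hk hH
  set τ := (s : ℝ) * (b : ℝ) ^ k / H with hτ
  have hm : ‖ee τ - 1‖ * ‖DK H K (s * (b : ℤ) ^ k)‖ ≤ 2 := by
    have := DK_mul H K (s * (b : ℤ) ^ k)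
    push_cast at this
    exact this
  set D := ‖DK H K (s * (b : ℤ) ^ k)‖ with hD
  have hD0 : 0 ≤ D := norm_nonneg _
  have eθ : (s : ℝ) * (b : ℝ) ^ k * θ / H = τ * θ := by rw [hτ]; ring
  rw [eθ, chord_neg]
  rcases near_or_far b l k H hb s hs hk hH hsH with h | h
  · have h2 := chord_ge h
    have hτ0 : |τ| = |(s : ℝ)| * (b : ℝ) ^ k / H := by
      rw [hτ, abs_div, abs_mul, abs_of_pos hbk, abs_of_pos hHR]
    have hτpos : 0 < |τ| := by
      rw [hτ0]
      positivity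
    have h3 : |τ| * D ≤ 1 / 2 := by nlinarith
    refine ⟨?_, ?_, ?_⟩
    · have h4 : D ≤ 1 / 2 * (H / (|(s : ℝ)| * (b : ℝ) ^ k)) := by
        rw [hτ0] at h3
        have h5 : D = |(s : ℝ)| * (b : ℝ) ^ k / H * D * (H / (|(s : ℝ)| * (b : ℝ) ^ k)) := by
          field_simp
        rw [h5]
        exact mul_le_mul_of_nonneg_right h3 (by positivity)
      refine h4.trans ?_
      rw [div_mul_eq_mul_div, one_mul, div_mul_eq_mul_div, div_div, div_le_div_iff₀ (by positivity)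
        (by positivity)]
      have h6 : (H : ℝ) * (b : ℝ) ^ k ≤ 4 * |(s : ℝ)| * H * (|(s : ℝ)| * (b : ℝ) ^ k * 2) := by
        have h7 : 1 ≤ |(s : ℝ)| * |(s : ℝ)| := by nlinarith
        have h8 : (0 : ℝ) ≤ H * (b : ℝ) ^ k := by positivity
        nlinarith
      linarith
    · have h4 : ‖ee (τ * θ) - 1‖ ≤ 2 * π * |τ| := by
        refine (chord_le _).trans ?_
        rw [abs_mul, abs_of_nonneg h0]
        have : |τ| * θ ≤ |τ| := mul_le_of_le_one_right hτpos.le h1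
        have hp := Real.pi_pos
        nlinarith
      have h5 : ‖ee (τ * θ) - 1‖ * D ≤ 2 * π * |τ| * D := mul_le_mul_of_nonneg_right h4 hD0
      have hp := Real.pi_le_four
      have hp0 := Real.pi_pos
      nlinarith
    · intro he
      rw [he, sub_self, norm_zero] at h2
      linarith
  · have h2 := chord_dist h
    have h3 : 4 * (1 / (8 * |(s : ℝ)|)) = 1 / (2 * |(s : ℝ)|) := by
      field_simp
      norm_num
    rw [h3] at h2
    have h4 : D ≤ 4 * |(s : ℝ)| := by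
      have h5 : 1 / (2 * |(s : ℝ)|) * D ≤ 2 := (mul_le_mul_of_nonneg_right h2 hD0).trans hm
      rw [div_mul_eq_mul_div, one_mul, div_le_iff₀ (by positivity)] at h5
      linarith
    refine ⟨h4.trans ?_, ?_, ?_⟩
    · rw [div_mul_eq_mul_div, le_div_iff₀ hbk]
      have : (0 : ℝ) ≤ 4 * |(s : ℝ)| := by positivity
      nlinarith
    · have h5 := chord_le_two (τ * θ)
      have h6 : 0 ≤ ‖ee (τ * θ) - 1‖ := norm_nonneg _
      nlinarith
    · intro he
      rw [he, sub_self, norm_zero] at h2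
      have : 0 < 1 / (2 * |(s : ℝ)|) := by positivity
      linarith

end

/-- sums of periodic functions -/
theorem per_sum {M : Type*} [AddCommMonoid M] {H : ℕ} (hH : 0 < H) (h : ℤ → M)
    (hp : ∀ a, h (a + H) = h a) (β c : ℤ) (hβ : IsCoprime β (H : ℤ)) :
    ∑ a ∈ range H, h (β * a + c) = ∑ a ∈ range H, h a := by
  have hHZ : (0 : ℤ) < H := by exact_mod_cast hH
  have hper : ∀ a k : ℤ, h (a + k * H) = h a := by
    intro a k
    induction k using Int.induction_on with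
    | zero => simp
    | succ k ih =>
      rw [add_mul, one_mul, ← add_assoc, hp, ih]
    | pred k ih =>
      rw [← hp, ← ih]
      congr 1
      ring
  have hmod : ∀ a : ℤ, h a = h (a % H) := by
    intro a
    have := hper (a % H) (a / H)
    rw [← this]
    congr 1
    rw [mul_comm]
    exact (Int.emod_add_mul_ediv a H).symm
  set φ : ℕ → ℕ := fun a => ((β * a + c) % H).toNat with hφ
  have hφZ : ∀ a, (φ a : ℤ) = (β * a + c) % H := by
    intro a
    exact Int.toNat_of_nonneg (Int.emod_nonneg _ hHZ.ne')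
  have hmaps : ∀ a ∈ range H, φ a ∈ range H := by
    intro a _
    rw [mem_range]
    have h1 := hφZ a
    have h2 := Int.emod_lt_of_pos (β * a + c) hHZ
    omega
  have hinj : Set.InjOn φ (range H : Set ℕ) := by
    intro a ha a' ha' haa
    rw [coe_range, Set.mem_Iio] at ha ha'
    have h1 : (β * a + c) % H = (β * a' + c) % H := by
      rw [← hφZ, ← hφZ, haa]
    have h2 : (H : ℤ) ∣ β * (a - a') := by
      have := Int.ModEq.dvd (show (β * a + c) ≡ (β * a' + c) [ZMOD H] from h1)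
      have h3 := (dvd_neg (α := ℤ)).2 this
      have e : -(β * a' + c - (β * a + c)) = β * (a - a') := by ring
      rwa [e] at h3
    have h3 : (H : ℤ) ∣ (a : ℤ) - a' := hβ.symm.dvd_of_dvd_mul_left h2
    have h4 : |(a : ℤ) - a'| < H := abs_lt.2 ⟨by omega, by omega⟩
    have h5 : (a : ℤ) - a' = 0 := Int.eq_zero_of_abs_lt_dvd h3 h4
    omega
  have himg : (range H).image φ = range H := by
    apply eq_of_subset_of_card_le (image_subset_iff.2 hmaps)
    rw [card_image_of_injOn hinj]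
  calc ∑ a ∈ range H, h (β * a + c) = ∑ a ∈ range H, h ((φ a : ℕ) : ℤ) := by
        refine sum_congr rfl fun a _ => ?_
        rw [hφZ, ← hmod]
    _ = ∑ a ∈ (range H).image φ, h (a : ℤ) := (sum_image (f := fun a : ℕ => h (a : ℤ)) hinj).symm
    _ = _ := by rw [himg]

end Pool.Agent.N304.NT
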