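import Pool.Agent.N304.NT.A

/-! # Exponential sums of step functions over the translates -/

set_option autoImplicit false

namespace Pool.Agent.N304.NT

open Finset Filter Topology
open scoped Real
open Pool.Agent.H534R3.UDist (ee norm_ee)

/-- the indicator function of `[0, β)` modulo one -/
noncomputable def ind (β t : ℝ) : ℝ := if Int.fract t < β then 1 else 0

theorem ind_add_int (β t : ℝ) (n : ℤ) : ind β (t + n) = ind β t := by
  unfold ind
  rw [Int.fract_add_intCast]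

theorem ind_congr (β : ℝ) {s t : ℝ} (n : ℤ) (h : s = t + n) : ind β s = ind β t := by
  rw [h, ind_add_int]

theorem ind_nonneg (β t : ℝ) : 0 ≤ ind β t := by
  unfold ind
  split_ifs <;> norm_num

theorem ind_le_one (β t : ℝ) : ind β t ≤ 1 := by
  unfold ind
  split_ifs <;> norm_num

/-- the exponential sum over the translates -/
noncomputable def GG (H : ℕ) (β y : ℝ) (t : ℤ) : ℂ :=
  ∑ a ∈ range H, (ind β (y + a / H) : ℂ) * ee (-((t : ℝ) * a / H))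

theorem GG_main (H : ℕ) (hH : 0 < H) (β : ℝ) (h0 : 0 ≤ β) (h1 : β ≤ 1) (y : ℝ) (t : ℤ) :
    ‖GG H β y t - ee ((t : ℝ) * ⌊(H : ℝ) * y⌋ / H) * DK H ⌊β * H⌋₊ t‖ ≤ 1 := by
  classical
  have hHR : (0 : ℝ) < H := by exact_mod_cast hH
  set c : ℤ := ⌊(H : ℝ) * y⌋ with hc
  set θ : ℝ := Int.fract ((H : ℝ) * y) with hθ
  have hθ0 : 0 ≤ θ := Int.fract_nonneg _
  have hθ1 : θ < 1 := Int.fract_lt_one _
  have hy : (H : ℝ) * y = c + θ := (Int.floor_add_fract _).symm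
  set h : ℤ → ℂ := fun u => (ind β ((θ + u) / H) : ℂ) * ee (-((t : ℝ) * u / H)) with hh
  have hper : ∀ a, h (a + H) = h a := by
    intro a
    simp only [hh]
    have e1 : ind β ((θ + ((a + H : ℤ) : ℝ)) / H) = ind β ((θ + a) / H) := by
      refine ind_congr β 1 ?_
      push_cast
      field_simp
      ring
    have e2 : ee (-((t : ℝ) * ((a + H : ℤ) : ℝ) / H)) = ee (-((t : ℝ) * a / H)) := by
      refine ee_congr (-t) ?_
      push_cast
      field_simp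
      ring
    rw [e1, e2]
  have e1 : GG H β y t = ee ((t : ℝ) * c / H) * ∑ u ∈ range H, h (u : ℤ) := by
    rw [← per_sum hH h hper 1 c (isCoprime_one_left), mul_sum]
    unfold GG
    refine sum_congr rfl fun a _ => ?_
    simp only [hh]
    have e3 : y + a / H = (θ + ((1 * (a : ℤ) + c : ℤ) : ℝ)) / H := by
      push_cast
      field_simp
      linarith
    have e4 : ee (-((t : ℝ) * a / H)) = ee ((t : ℝ) * c / H) *
        ee (-((t : ℝ) * ((1 * (a : ℤ) + c : ℤ) : ℝ) / H)) := by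
      rw [← ee_add]
      congr 1
      push_cast
      ring
    rw [e3, e4]
    ring
  rw [e1, ← mul_sub, norm_mul, norm_ee, one_mul]
  have hind : ∀ u ∈ range H, h (u : ℤ) = if θ + u < β * H then ee (-((t : ℝ) * u / H)) else 0 := by
    intro u hu
    have hu' : (u : ℝ) + 1 ≤ H := by exact_mod_cast mem_range.1 hu
    simp only [hh]
    unfold ind
    rw [Int.cast_natCast, Int.fract_eq_self.2 ⟨by positivity, by rw [div_lt_one hHR]; linarith⟩]
    by_cases hc2 : θ + u < β * H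
    · rw [if_pos hc2, if_pos (by rw [div_lt_iff₀ hHR]; exact hc2)]
      simp
    · rw [if_neg hc2, if_neg (by rw [div_lt_iff₀ hHR]; exact hc2)]
      simp
  rw [sum_congr rfl hind, ← sum_filter]
  set K := ⌊β * H⌋₊ with hK
  have hK1 : (K : ℝ) ≤ β * H := Nat.floor_le (by positivity)
  have hK2 : β * H < K + 1 := Nat.lt_floor_add_one _
  set U := (range H).filter (fun u : ℕ => θ + u < β * H) with hU
  have hsub : range K ⊆ U := by
    intro u hu
    have hu' : (u : ℝ) + 1 ≤ K := by exact_mod_cast mem_range.1 hu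
    rw [hU, mem_filter, mem_range]
    refine ⟨?_, by linarith⟩
    have : (u : ℝ) < H := by nlinarith
    exact_mod_cast this
  unfold DK
  rw [← sum_sdiff hsub, add_sub_cancel_right]
  refine (norm_sum_le _ _).trans ?_
  simp only [norm_ee, sum_const, nsmul_eq_mul, mul_one]
  have hcard : U \ range K ⊆ {K} := by
    intro u hu
    rw [Finset.mem_sdiff, hU, mem_filter, mem_range, mem_range, not_lt] at hu
    rw [mem_singleton]
    obtain ⟨⟨h2, h3⟩, h4⟩ := hu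
    have h5 : (u : ℝ) < K + 1 := by linarith
    have h6 : u < K + 1 := by exact_mod_cast h5
    omega
  have := card_le_card hcard
  rw [card_singleton] at this
  exact_mod_cast this

section
variable {ι : Type} (J : Finset ι) (lam β : ι → ℝ)

/-- the step function -/
noncomputable def ff (y : ℝ) : ℝ := ∑ j ∈ J, lam j * ind (β j) y

/-- the mean of the step function -/
noncomputable def fm : ℝ := ∑ j ∈ J, lam j * β j

/-- the sum of the jumps -/
noncomputable def Lam : ℝ := ∑ j ∈ J, |lam j|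

theorem Lam_nonneg : 0 ≤ Lam J lam := sum_nonneg fun _ _ => abs_nonneg _

theorem ff_congr {s t : ℝ} (n : ℤ) (h : s = t + n) : ff J lam β s = ff J lam β t := by
  unfold ff
  refine sum_congr rfl fun j _ => ?_
  rw [ind_congr (β j) n h]

noncomputable def GF (H : ℕ) (y : ℝ) (t : ℤ) : ℂ :=
  ∑ a ∈ range H, (ff J lam β (y + a / H) : ℂ) * ee (-((t : ℝ) * a / H))

noncomputable def DF (H : ℕ) (t : ℤ) : ℂ := ∑ j ∈ J, (lam j : ℂ) * DK H ⌊β j * H⌋₊ t

theorem GF_eq (H : ℕ) (y : ℝ) (t : ℤ) : GF J lam β H y t = ∑ j ∈ J, (lam j : ℂ) * GG H (β j) y t := by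
  unfold GF GG ff
  simp only [mul_sum]
  rw [sum_comm]
  refine sum_congr rfl fun a _ => ?_
  push_cast
  rw [sum_mul]
  refine sum_congr rfl fun j _ => ?_
  ring

theorem GF_main (hβ : ∀ j ∈ J, 0 ≤ β j ∧ β j ≤ 1) (H : ℕ) (hH : 0 < H) (y : ℝ) (t : ℤ) :
    ‖GF J lam β H y t - ee ((t : ℝ) * ⌊(H : ℝ) * y⌋ / H) * DF J lam β H t‖ ≤ Lam J lam := by
  rw [GF_eq]
  unfold DF Lam
  rw [mul_sum, ← sum_sub_distrib]
  refine (norm_sum_le _ _).trans (sum_le_sum fun j hj => ?_)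
  have e : (lam j : ℂ) * GG H (β j) y t - ee ((t : ℝ) * ⌊(H : ℝ) * y⌋ / H) *
      ((lam j : ℂ) * DK H ⌊β j * H⌋₊ t) = (lam j : ℂ) * (GG H (β j) y t -
        ee ((t : ℝ) * ⌊(H : ℝ) * y⌋ / H) * DK H ⌊β j * H⌋₊ t) := by ring
  rw [e, norm_mul, Complex.norm_real, Real.norm_eq_abs]
  exact mul_le_of_le_one_right (abs_nonneg _) (GG_main H hH (β j) (hβ j hj).1 (hβ j hj).2 y t)

theorem DF_triv (hβ : ∀ j ∈ J, 0 ≤ β j ∧ β j ≤ 1) (H : ℕ) (t : ℤ) :
    ‖DF J lam β H t‖ ≤ Lam J lam * H := by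
  unfold DF Lam
  rw [sum_mul]
  refine (norm_sum_le _ _).trans (sum_le_sum fun j hj => ?_)
  rw [norm_mul, Complex.norm_real, Real.norm_eq_abs]
  apply mul_le_mul_of_nonneg_left _ (abs_nonneg _)
  refine (norm_DK_le _ _ _).trans ?_
  have h1 := (hβ j hj).1
  have h2 := (hβ j hj).2
  have h3 : (⌊β j * H⌋₊ : ℝ) ≤ β j * H := Nat.floor_le (by positivity)
  have h4 : (0 : ℝ) ≤ H := Nat.cast_nonneg _
  nlinarith

section
variable (b l k H : ℕ) (hb : 2 ≤ b) (s : ℤ) (hs : ¬ (b : ℤ) ∣ s) (hk : k < l)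
  (hH : H + 1 = b ^ l) (hsH : 2 * |(s : ℝ)| ≤ H)

include hb hs hk hH hsH in
theorem DF_le : ‖DF J lam β H (s * (b : ℤ) ^ k)‖ ≤
    Lam J lam * (4 * |(s : ℝ)| / (b : ℝ) ^ k * H) := by
  unfold DF Lam
  rw [sum_mul]
  refine (norm_sum_le _ _).trans (sum_le_sum fun j _ => ?_)
  rw [norm_mul, Complex.norm_real, Real.norm_eq_abs]
  exact mul_le_mul_of_nonneg_left
    (DK_both b l k H hb s hs hk hH hsH _ 0 le_rfl zero_le_one).1 (abs_nonneg _)

include hb hs hk hH hsH in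
theorem DF_phase (θ : ℝ) (h0 : 0 ≤ θ) (h1 : θ ≤ 1) :
    ‖ee (-((s : ℝ) * (b : ℝ) ^ k * θ / H)) - 1‖ * ‖DF J lam β H (s * (b : ℤ) ^ k)‖ ≤
      Lam J lam * (8 * |(s : ℝ)|) := by
  have h2 : ‖DF J lam β H (s * (b : ℤ) ^ k)‖ ≤
      ∑ j ∈ J, |lam j| * ‖DK H ⌊β j * H⌋₊ (s * (b : ℤ) ^ k)‖ := by
    unfold DF
    refine (norm_sum_le _ _).trans (sum_le_sum fun j _ => ?_)
    rw [norm_mul, Complex.norm_real, Real.norm_eq_abs]
  refine (mul_le_mul_of_nonneg_left h2 (norm_nonneg _)).trans ?_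
  unfold Lam
  rw [mul_sum, sum_mul]
  refine sum_le_sum fun j _ => ?_
  have h3 := (DK_both b l k H hb s hs hk hH hsH ⌊β j * H⌋₊ θ h0 h1).2.1
  have h4 := mul_le_mul_of_nonneg_left h3 (abs_nonneg (lam j))
  linarith

include hb hs hk hH hsH in
/-- the exponential sum at one place of the digit expansion -/
theorem GF_place (hβ : ∀ j ∈ J, 0 ≤ β j ∧ β j ≤ 1) (n : ℕ) (x : ℝ) :
    ‖GF J lam β H (x * (b : ℝ) ^ n) (s * (b : ℤ) ^ k) -
      ee ((s : ℝ) * (b : ℝ) ^ (n + k) * x) * DF J lam β H (s * (b : ℤ) ^ k)‖ ≤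
      Lam J lam * (9 * |(s : ℝ)|) := by
  have hs1 := one_le_abs_of hs
  have hHR : (0 : ℝ) < H := by linarith
  have hH0 : 0 < H := by exact_mod_cast hHR
  have h1 := GF_main J lam β hβ H hH0 (x * (b : ℝ) ^ n) (s * (b : ℤ) ^ k)
  set D := DF J lam β H (s * (b : ℤ) ^ k) with hD
  set θ : ℝ := Int.fract ((H : ℝ) * (x * (b : ℝ) ^ n)) with hθ
  have hθ0 : 0 ≤ θ := Int.fract_nonneg _
  have hθ1 : θ < 1 := Int.fract_lt_one _
  have hfl : (⌊(H : ℝ) * (x * (b : ℝ) ^ n)⌋ : ℝ) = H * (x * (b : ℝ) ^ n) - θ := by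
    rw [hθ]
    unfold Int.fract
    ring
  have e1 : ee (((s * (b : ℤ) ^ k : ℤ) : ℝ) * ⌊(H : ℝ) * (x * (b : ℝ) ^ n)⌋ / H) =
      ee ((s : ℝ) * (b : ℝ) ^ (n + k) * x) * ee (-((s : ℝ) * (b : ℝ) ^ k * θ / H)) := by
    rw [← ee_add, hfl]
    congr 1
    push_cast
    rw [pow_add]
    field_simp
    ring
  rw [e1] at h1
  have h2 := DF_phase J lam β b l k H hb s hs hk hH hsH θ hθ0 hθ1.le
  have h3 : GF J lam β H (x * (b : ℝ) ^ n) (s * (b : ℤ) ^ k) -
      ee ((s : ℝ) * (b : ℝ) ^ (n + k) * x) * D =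
      (GF J lam β H (x * (b : ℝ) ^ n) (s * (b : ℤ) ^ k) -
        ee ((s : ℝ) * (b : ℝ) ^ (n + k) * x) * ee (-((s : ℝ) * (b : ℝ) ^ k * θ / H)) * D) +
      ee ((s : ℝ) * (b : ℝ) ^ (n + k) * x) *
        ((ee (-((s : ℝ) * (b : ℝ) ^ k * θ / H)) - 1) * D) := by ring
  rw [h3]
  refine (norm_add_le _ _).trans ?_
  rw [norm_mul (ee _) (_ * D), norm_ee, one_mul, norm_mul]
  have h4 : Lam J lam ≤ Lam J lam * |(s : ℝ)| := le_mul_of_one_le_right (Lam_nonneg J lam) hs1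
  linarith

end

/-- the sum over the digits -/
noncomputable def FF (b H N : ℕ) (x : ℝ) (a : ℕ) : ℝ :=
  ∑ n ∈ range N, ff J lam β ((x + a / H) * (b : ℝ) ^ n)

theorem coprime_H (b l H : ℕ) (hl : 1 ≤ l) (hH : H + 1 = b ^ l) : IsCoprime (b : ℤ) (H : ℤ) := by
  obtain ⟨j, rfl⟩ : ∃ j, l = j + 1 := ⟨l - 1, by omega⟩
  refine ⟨(b : ℤ) ^ j, -1, ?_⟩
  have : (H : ℤ) + 1 = (b : ℤ) ^ (j + 1) := by exact_mod_cast hH
  rw [pow_succ] at this
  linarith

/-- `b ^ u ≡ b ^ v` modulo `b ^ l - 1` if `u ≡ v` modulo `l` -/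
theorem pow_congr (b l H : ℕ) (hH : H + 1 = b ^ l) (u v : ℕ) (huv : u ≡ v [MOD l]) :
    (H : ℤ) ∣ (b : ℤ) ^ u - (b : ℤ) ^ v := by
  have hHZ : (H : ℤ) + 1 = (b : ℤ) ^ l := by exact_mod_cast hH
  have h1 : ∀ w : ℕ, (b : ℤ) ^ w ≡ (b : ℤ) ^ (w % l) [ZMOD H] := by
    intro w
    have h2 : (b : ℤ) ^ l ≡ 1 [ZMOD H] := by
      rw [← hHZ]
      exact (Int.modEq_iff_dvd.2 ⟨-1, by ring⟩)
    calc (b : ℤ) ^ w = ((b : ℤ) ^ l) ^ (w / l) * (b : ℤ) ^ (w % l) := by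
          rw [← pow_mul, ← pow_add, Nat.div_add_mod]
      _ ≡ 1 ^ (w / l) * (b : ℤ) ^ (w % l) [ZMOD H] := (h2.pow _).mul_right _
      _ = (b : ℤ) ^ (w % l) := by rw [one_pow, one_mul]
  have h3 := (h1 v).trans ((show v % l = u % l from huv.symm) ▸ (h1 u).symm)
  exact h3.dvd

section
variable (b l H : ℕ) (hb : 2 ≤ b) (hl : 1 ≤ l) (hH : H + 1 = b ^ l)

include hb hl hH in
/-- the transform of one term -/
theorem term_eq (s : ℤ) (x : ℝ) (n k j0 : ℕ) (hnk : n + k ≡ j0 [MOD l]) :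
    ∑ a ∈ range H, (ff J lam β ((x + a / H) * (b : ℝ) ^ n) : ℂ) *
      ee (-(((s * (b : ℤ) ^ j0 : ℤ) : ℝ) * a / H)) =
    GF J lam β H (x * (b : ℝ) ^ n) (s * (b : ℤ) ^ k) := by
  have hH0 : 0 < H := by
    have : b ^ 1 ≤ b ^ l := Nat.pow_le_pow_right (by omega) hl
    rw [pow_one] at this
    omega
  have hHR : (0 : ℝ) < H := by exact_mod_cast hH0
  set h : ℤ → ℂ := fun a => (ff J lam β (x * (b : ℝ) ^ n + a / H) : ℂ) *
    ee (-(((s * (b : ℤ) ^ k : ℤ) : ℝ) * a / H)) with hh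
  have hper : ∀ a, h (a + H) = h a := by
    intro a
    simp only [hh]
    have e1 : ff J lam β (x * (b : ℝ) ^ n + ((a + H : ℤ) : ℝ) / H) =
        ff J lam β (x * (b : ℝ) ^ n + a / H) := by
      refine ff_congr J lam β 1 ?_
      push_cast
      field_simp
      ring
    have e2 : ee (-(((s * (b : ℤ) ^ k : ℤ) : ℝ) * ((a + H : ℤ) : ℝ) / H)) =
        ee (-(((s * (b : ℤ) ^ k : ℤ) : ℝ) * a / H)) := by
      refine ee_congr (-(s * (b : ℤ) ^ k)) ?_
      push_cast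
      field_simp
      ring
    rw [e1, e2]
  have e0 := per_sum hH0 h hper ((b : ℤ) ^ n) 0 ((coprime_H b l H hl hH).pow_left)
  have e1 : GF J lam β H (x * (b : ℝ) ^ n) (s * (b : ℤ) ^ k) = ∑ a ∈ range H, h (a : ℤ) := by
    unfold GF
    refine sum_congr rfl fun a _ => ?_
    simp only [hh, Int.cast_natCast]
  rw [e1, ← e0]
  refine sum_congr rfl fun a _ => ?_
  simp only [hh]
  have e2 : (x + a / H) * (b : ℝ) ^ n = x * (b : ℝ) ^ n + (((b : ℤ) ^ n * (a : ℤ) + 0 : ℤ) : ℝ) / H := by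
    push_cast
    ring
  have e3 : ee (-(((s * (b : ℤ) ^ j0 : ℤ) : ℝ) * a / H)) =
      ee (-(((s * (b : ℤ) ^ k : ℤ) : ℝ) * (((b : ℤ) ^ n * (a : ℤ) + 0 : ℤ) : ℝ) / H)) := by
    obtain ⟨q, hq⟩ := pow_congr b l H hH _ _ hnk
    refine ee_congr (s * q * a) ?_
    have hqR : (b : ℝ) ^ (n + k) - (b : ℝ) ^ j0 = H * q := by exact_mod_cast hq
    push_cast
    field_simp
    rw [pow_add] at hqR
    linear_combination (s : ℝ) * (a : ℝ) * hqR
  rw [e2, e3]

end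

end

end Pool.Agent.N304.NT
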