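import Pool.Agent.N304.NT.B

/-! # The main inequality -/

set_option autoImplicit false

namespace Pool.Agent.N304.NT

open Finset Filter Topology
open scoped Real
open Pool.Agent.H534R3.UDist (ee norm_ee)

theorem shift_sum (g : ℕ → ℂ) (hg : ∀ n, ‖g n‖ ≤ 1) (N k : ℕ) :
    ‖∑ n ∈ range N, g (n + k) - ∑ n ∈ range N, g n‖ ≤ 2 * k := by
  have h1 := sum_range_add g k N
  have h2 := sum_range_add g N k
  rw [add_comm N k, h1] at h2
  have e1 : ∑ n ∈ range N, g (n + k) = ∑ n ∈ range N, g (k + n) :=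
    sum_congr rfl fun n _ => by rw [add_comm]
  have e2 : ∑ n ∈ range N, g (n + k) - ∑ n ∈ range N, g n =
      ∑ n ∈ range k, g (N + n) - ∑ n ∈ range k, g n := by
    rw [e1]
    linear_combination h2
  rw [e2]
  have h3 : ∀ f : ℕ → ℂ, (∀ n, ‖f n‖ ≤ 1) → ‖∑ n ∈ range k, f n‖ ≤ k := by
    intro f hf
    refine (norm_sum_le _ _).trans ((sum_le_sum fun n _ => hf n).trans (le_of_eq ?_))
    simp
  have h4 := h3 (fun n => g (N + n)) (fun n => hg _)
  have h5 := h3 g hg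
  have h6 := norm_sub_le (∑ n ∈ range k, g (N + n)) (∑ n ∈ range k, g n)
  linarith

theorem class_unique (l n j0 k k' : ℕ) (hk : k < l) (hk' : k' < l) (h : n + k ≡ j0 [MOD l])
    (h' : n + k' ≡ j0 [MOD l]) : k = k' := by
  have h1 : n + k ≡ n + k' [MOD l] := h.trans h'.symm
  have h2 : k ≡ k' [MOD l] := Nat.ModEq.add_left_cancel' n h1
  unfold Nat.ModEq at h2
  rwa [Nat.mod_eq_of_lt hk, Nat.mod_eq_of_lt hk'] at h2

theorem class_exists (l n j0 : ℕ) (hl : 1 ≤ l) : ∃ k < l, n + k ≡ j0 [MOD l] := by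
  refine ⟨(j0 + (l - n % l)) % l, Nat.mod_lt _ (by omega), ?_⟩
  have h1 : n % l < l := Nat.mod_lt _ (by omega)
  have h2 : n + (j0 + (l - n % l)) % l ≡ n % l + (j0 + (l - n % l)) [MOD l] :=
    (Nat.mod_modEq n l).symm.add (Nat.mod_modEq _ l)
  refine h2.trans ?_
  have e : n % l + (j0 + (l - n % l)) = j0 + l := by omega
  rw [e]
  exact (Nat.modEq_iff_dvd' (by omega)).2 (by simp) |>.symm

/-- the exponential sum over one class of places -/
noncomputable def WW (b l N : ℕ) (s : ℤ) (x : ℝ) (j0 : ℕ) : ℂ :=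
  ∑ n ∈ range N, if n ≡ j0 [MOD l] then ee ((s : ℝ) * (b : ℝ) ^ n * x) else 0

theorem WW_sum (b l N : ℕ) (hl : 1 ≤ l) (s : ℤ) (x : ℝ) :
    ∑ j0 ∈ range l, WW b l N s x j0 = ∑ n ∈ range N, ee ((s : ℝ) * (b : ℝ) ^ n * x) := by
  unfold WW
  rw [sum_comm]
  refine sum_congr rfl fun n _ => ?_
  rw [sum_eq_single (n % l)]
  · rw [if_pos (Nat.mod_modEq n l).symm]
  · intro j hj hne
    rw [if_neg]
    intro h
    apply hne
    unfold Nat.ModEq at h
    rw [Nat.mod_eq_of_lt (mem_range.1 hj)] at h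
    exact h.symm
  · intro h
    exact absurd (mem_range.2 (Nat.mod_lt _ (by omega))) h

section
variable {ι : Type} (J : Finset ι) (lam β : ι → ℝ)

/-- the main coefficient -/
noncomputable def MM (b l H : ℕ) (s : ℤ) : ℂ := ∑ k ∈ range l, DF J lam β H (s * (b : ℤ) ^ k)

/-- the transform -/
noncomputable def TT (b H N : ℕ) (x : ℝ) (t : ℤ) : ℂ :=
  ∑ a ∈ range H, (FF J lam β b H N x a : ℂ) * ee (-((t : ℝ) * a / H))

section
variable (b l H : ℕ) (hb : 2 ≤ b) (hl : 1 ≤ l) (s : ℤ) (hs : ¬ (b : ℤ) ∣ s)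
  (hH : H + 1 = b ^ l) (hsH : 2 * |(s : ℝ)| ≤ H) (hβ : ∀ j ∈ J, 0 ≤ β j ∧ β j ≤ 1)

include hb hl hs hH hsH hβ in
theorem TT_main (N : ℕ) (x : ℝ) (j0 : ℕ) :
    ‖TT J lam β b H N x (s * (b : ℤ) ^ j0) - WW b l N s x j0 * MM J lam β b l H s‖ ≤
      Lam J lam * (9 * |(s : ℝ)|) * N + l * (Lam J lam * H * (2 * l)) := by
  set g : ℕ → ℂ := fun n => if n ≡ j0 [MOD l] then ee ((s : ℝ) * (b : ℝ) ^ n * x) else 0 with hg
  have hg1 : ∀ n, ‖g n‖ ≤ 1 := by
    intro n
    simp only [hg]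
    split_ifs
    · rw [norm_ee]
    · simp
  have e1 : TT J lam β b H N x (s * (b : ℤ) ^ j0) = ∑ n ∈ range N, ∑ a ∈ range H,
      (ff J lam β ((x + a / H) * (b : ℝ) ^ n) : ℂ) *
        ee (-(((s * (b : ℤ) ^ j0 : ℤ) : ℝ) * a / H)) := by
    unfold TT FF
    rw [sum_comm]
    refine sum_congr rfl fun a _ => ?_
    push_cast
    rw [sum_mul]
  have h1 : ∀ n ∈ range N, ‖(∑ a ∈ range H, (ff J lam β ((x + a / H) * (b : ℝ) ^ n) : ℂ) *
        ee (-(((s * (b : ℤ) ^ j0 : ℤ) : ℝ) * a / H))) -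
      ∑ k ∈ range l, g (n + k) * DF J lam β H (s * (b : ℤ) ^ k)‖ ≤
      Lam J lam * (9 * |(s : ℝ)|) := by
    intro n _
    obtain ⟨k, hk, hnk⟩ := class_exists l n j0 hl
    rw [term_eq J lam β b l H hb hl hH s x n k j0 hnk]
    have e2 : ∑ k ∈ range l, g (n + k) * DF J lam β H (s * (b : ℤ) ^ k) =
        ee ((s : ℝ) * (b : ℝ) ^ (n + k) * x) * DF J lam β H (s * (b : ℤ) ^ k) := by
      rw [sum_eq_single k]
      · simp only [hg]
        rw [if_pos hnk]
      · intro k' hk' hne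
        simp only [hg]
        rw [if_neg, zero_mul]
        intro h
        exact hne (class_unique l n j0 k' k (mem_range.1 hk') hk h hnk)
      · intro h
        exact absurd (mem_range.2 hk) h
    rw [e2]
    exact GF_place J lam β b l k H hb s hs hk hH hsH hβ n x
  have h2 : ‖TT J lam β b H N x (s * (b : ℤ) ^ j0) -
      ∑ k ∈ range l, DF J lam β H (s * (b : ℤ) ^ k) * ∑ n ∈ range N, g (n + k)‖ ≤
      Lam J lam * (9 * |(s : ℝ)|) * N := by
    have e2 : ∑ k ∈ range l, DF J lam β H (s * (b : ℤ) ^ k) * ∑ n ∈ range N, g (n + k) =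
        ∑ n ∈ range N, ∑ k ∈ range l, g (n + k) * DF J lam β H (s * (b : ℤ) ^ k) := by
      rw [sum_comm]
      refine sum_congr rfl fun k _ => ?_
      rw [mul_sum]
      refine sum_congr rfl fun n _ => ?_
      ring
    rw [e1, e2, ← sum_sub_distrib]
    refine (norm_sum_le _ _).trans ((sum_le_sum h1).trans (le_of_eq ?_))
    rw [sum_const, card_range, nsmul_eq_mul]
    ring
  have h3 : ‖∑ k ∈ range l, DF J lam β H (s * (b : ℤ) ^ k) * ∑ n ∈ range N, g (n + k) -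
      WW b l N s x j0 * MM J lam β b l H s‖ ≤ l * (Lam J lam * H * (2 * l)) := by
    have e2 : WW b l N s x j0 * MM J lam β b l H s =
        ∑ k ∈ range l, DF J lam β H (s * (b : ℤ) ^ k) * ∑ n ∈ range N, g n := by
      unfold MM
      rw [mul_sum]
      refine sum_congr rfl fun k _ => ?_
      unfold WW
      ring
    rw [e2, ← sum_sub_distrib]
    have h4 : ∀ k ∈ range l, ‖DF J lam β H (s * (b : ℤ) ^ k) * ∑ n ∈ range N, g (n + k) -
        DF J lam β H (s * (b : ℤ) ^ k) * ∑ n ∈ range N, g n‖ ≤ Lam J lam * H * (2 * l) := by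
      intro k hk
      rw [← mul_sub, norm_mul]
      have hk' : (k : ℝ) ≤ l := by exact_mod_cast (mem_range.1 hk).le
      apply mul_le_mul (DF_triv J lam β hβ H _) _ (norm_nonneg _)
        (mul_nonneg (Lam_nonneg J lam) (Nat.cast_nonneg _))
      refine (shift_sum g hg1 N k).trans ?_
      linarith
    refine (norm_sum_le _ _).trans ((sum_le_sum h4).trans (le_of_eq ?_))
    rw [sum_const, card_range, nsmul_eq_mul]
  have h4 := norm_sub_le_norm_sub_add_norm_sub (TT J lam β b H N x (s * (b : ℤ) ^ j0))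
    (∑ k ∈ range l, DF J lam β H (s * (b : ℤ) ^ k) * ∑ n ∈ range N, g (n + k))
    (WW b l N s x j0 * MM J lam β b l H s)
  linarith

/-- the deviation -/
noncomputable def Del (b H N : ℕ) (x : ℝ) (a : ℕ) : ℝ :=
  FF J lam β b H N x a - N * fm J lam β

include hb hs hH hsH in
theorem char_sum_zero (j0 : ℕ) (hj : j0 < l) :
    ∑ a ∈ range H, ee (-(((s * (b : ℤ) ^ j0 : ℤ) : ℝ) * a / H)) = 0 := by
  have hs1 := one_le_abs_of hs
  have hHR : (0 : ℝ) < H := by linarith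
  have h1 := DK_geom H H (s * (b : ℤ) ^ j0)
  have h2 : ee (-(((s * (b : ℤ) ^ j0 : ℤ) : ℝ) * H / H)) = 1 := by
    rw [mul_div_assoc, div_self hHR.ne', mul_one]
    have := ee_int (-(s * (b : ℤ) ^ j0))
    push_cast at this ⊢
    exact this
  rw [h2, sub_self] at h1
  rcases mul_eq_zero.1 h1 with h3 | h3
  · exfalso
    have h4 := (DK_both b l j0 H hb s hs hj hH hsH 0 0 le_rfl zero_le_one).2.2
    apply h4
    have h5 : ‖ee (-(((s * (b : ℤ) ^ j0 : ℤ) : ℝ) / H)) - 1‖ = 0 := by rw [h3, norm_zero]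
    rw [chord_neg, norm_eq_zero, sub_eq_zero] at h5
    push_cast at h5
    exact h5
  · exact h3

include hb hs hH hsH in
theorem TT_le (N : ℕ) (x : ℝ) (j0 : ℕ) (hj : j0 < l) :
    ‖TT J lam β b H N x (s * (b : ℤ) ^ j0)‖ ≤ ∑ a ∈ range H, |Del J lam β b H N x a| := by
  have h1 := char_sum_zero b l H hb s hs hH hsH j0 hj
  have e : TT J lam β b H N x (s * (b : ℤ) ^ j0) = ∑ a ∈ range H,
      (Del J lam β b H N x a : ℂ) * ee (-(((s * (b : ℤ) ^ j0 : ℤ) : ℝ) * a / H)) := by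
    unfold TT Del
    have h2 : ∑ a ∈ range H, ((N * fm J lam β : ℝ) : ℂ) *
        ee (-(((s * (b : ℤ) ^ j0 : ℤ) : ℝ) * a / H)) = 0 := by
      rw [← mul_sum, h1, mul_zero]
    rw [← sub_zero (∑ a ∈ range H, (FF J lam β b H N x a : ℂ) * _), ← h2, ← sum_sub_distrib]
    refine sum_congr rfl fun a _ => ?_
    push_cast
    ring
  rw [e]
  refine (norm_sum_le _ _).trans (le_of_eq ?_)
  refine sum_congr rfl fun a _ => ?_
  rw [norm_mul, norm_ee, mul_one, Complex.norm_real, Real.norm_eq_abs]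

include hb hl hH hβ in
/-- the mean of the deviations over the translates is small -/
theorem Del_sum (N : ℕ) (x : ℝ) :
    |∑ a ∈ range H, Del J lam β b H N x a| ≤ 2 * Lam J lam * N := by
  have hH0 : 0 < H := by
    have : b ^ 1 ≤ b ^ l := Nat.pow_le_pow_right (by omega) hl
    rw [pow_one] at this
    omega
  have hHR : (0 : ℝ) < H := by exact_mod_cast hH0
  have e1 : ((∑ a ∈ range H, Del J lam β b H N x a : ℝ) : ℂ) =
      ∑ n ∈ range N, (GF J lam β H (x * (b : ℝ) ^ n) (0 * (b : ℤ) ^ 0) -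
        ((H * fm J lam β : ℝ) : ℂ)) := by
    have h1 : ∀ n ∈ range N, GF J lam β H (x * (b : ℝ) ^ n) (0 * (b : ℤ) ^ 0) =
        ((∑ a ∈ range H, ff J lam β ((x + a / H) * (b : ℝ) ^ n) : ℝ) : ℂ) := by
      intro n _
      obtain ⟨k, hk, hnk⟩ := class_exists l n 0 hl
      have h2 := term_eq J lam β b l H hb hl hH 0 x n k 0 hnk
      have e2 : (0 : ℤ) * (b : ℤ) ^ k = 0 * (b : ℤ) ^ 0 := by simp
      rw [← e2, ← h2]
      push_cast
      refine sum_congr rfl fun a _ => ?_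
      simp [ee_zero]
    have hR : ∑ n ∈ range N, (GF J lam β H (x * (b : ℝ) ^ n) (0 * (b : ℤ) ^ 0) -
        ((H * fm J lam β : ℝ) : ℂ)) = ∑ n ∈ range N,
        (((∑ a ∈ range H, ff J lam β ((x + a / H) * (b : ℝ) ^ n) : ℝ) : ℂ) -
        ((H * fm J lam β : ℝ) : ℂ)) := sum_congr rfl fun n hn => by rw [h1 n hn]
    rw [hR]
    unfold Del FF
    push_cast
    rw [sum_sub_distrib, sum_sub_distrib, sum_comm]
    simp only [sum_const, card_range, nsmul_eq_mul]
    ring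
  have h2 : ∀ n ∈ range N, ‖GF J lam β H (x * (b : ℝ) ^ n) (0 * (b : ℤ) ^ 0) -
      ((H * fm J lam β : ℝ) : ℂ)‖ ≤ 2 * Lam J lam := by
    intro n _
    have h3 := GF_main J lam β hβ H hH0 (x * (b : ℝ) ^ n) (0 * (b : ℤ) ^ 0)
    have e2 : ee (((0 * (b : ℤ) ^ 0 : ℤ) : ℝ) * ⌊(H : ℝ) * (x * (b : ℝ) ^ n)⌋ / H) = 1 := by
      simp [ee_zero]
    rw [e2, one_mul] at h3
    have h4 : ‖DF J lam β H (0 * (b : ℤ) ^ 0) - ((H * fm J lam β : ℝ) : ℂ)‖ ≤ Lam J lam := by
      have e3 : DF J lam β H (0 * (b : ℤ) ^ 0) - ((H * fm J lam β : ℝ) : ℂ) =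
          ∑ j ∈ J, (lam j : ℂ) * (((⌊β j * H⌋₊ : ℝ) - β j * H : ℝ) : ℂ) := by
        unfold DF fm DK
        push_cast
        rw [mul_sum, ← sum_sub_distrib]
        refine sum_congr rfl fun j _ => ?_
        have e4 : ∑ u ∈ range ⌊β j * H⌋₊, ee (-(0 * (b : ℝ) ^ 0 * u / H)) = ⌊β j * H⌋₊ := by
          simp [ee_zero]
        rw [e4]
        ring
      rw [e3]
      unfold Lam
      refine (norm_sum_le _ _).trans (sum_le_sum fun j hj => ?_)
      rw [norm_mul, Complex.norm_real, Complex.norm_real, Real.norm_eq_abs, Real.norm_eq_abs]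
      apply mul_le_of_le_one_right (abs_nonneg _)
      have h5 : (⌊β j * H⌋₊ : ℝ) ≤ β j * H := Nat.floor_le (mul_nonneg (hβ j hj).1 hHR.le)
      have h6 : β j * H < ⌊β j * H⌋₊ + 1 := Nat.lt_floor_add_one _
      rw [abs_le]
      constructor <;> linarith
    have h5 := norm_sub_le_norm_sub_add_norm_sub
      (GF J lam β H (x * (b : ℝ) ^ n) (0 * (b : ℤ) ^ 0)) (DF J lam β H (0 * (b : ℤ) ^ 0))
      ((H * fm J lam β : ℝ) : ℂ)
    linarith
  have h3 : |∑ a ∈ range H, Del J lam β b H N x a| =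
      ‖((∑ a ∈ range H, Del J lam β b H N x a : ℝ) : ℂ)‖ := by
    rw [Complex.norm_real, Real.norm_eq_abs]
  rw [h3, e1]
  refine (norm_sum_le _ _).trans ((sum_le_sum h2).trans (le_of_eq ?_))
  rw [sum_const, card_range, nsmul_eq_mul]
  ring

include hb hl hs hH hsH hβ in
/-- **the main inequality**, for the excesses and for the deficits -/
theorem main_ineq (N : ℕ) (x : ℝ) (σ : ℝ) (hσ : σ = 1 ∨ σ = -1) :
    ‖MM J lam β b l H s‖ * ‖∑ n ∈ range N, ee ((s : ℝ) * (b : ℝ) ^ n * x)‖ ≤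
      l * (2 * ∑ a ∈ range H, max (σ * Del J lam β b H N x a) 0 +
        11 * |(s : ℝ)| * Lam J lam * N + 2 * l ^ 2 * Lam J lam * H) := by
  have hs1 := one_le_abs_of hs
  have hΛ := Lam_nonneg J lam
  have hN : (0 : ℝ) ≤ N := Nat.cast_nonneg _
  have h1 : ∑ a ∈ range H, |Del J lam β b H N x a| ≤
      2 * ∑ a ∈ range H, max (σ * Del J lam β b H N x a) 0 + 2 * Lam J lam * N := by
    have h2 := Del_sum J lam β b l H hb hl hH hβ N x
    have h3 : ∑ a ∈ range H, |Del J lam β b H N x a| =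
        2 * ∑ a ∈ range H, max (σ * Del J lam β b H N x a) 0 -
          σ * ∑ a ∈ range H, Del J lam β b H N x a := by
      rw [mul_sum, mul_sum, ← sum_sub_distrib]
      refine sum_congr rfl fun a _ => ?_
      rcases hσ with h | h
      · rw [h, one_mul]
        rcases le_total (Del J lam β b H N x a) 0 with h4 | h4
        · rw [max_eq_right h4, abs_of_nonpos h4]
          ring
        · rw [max_eq_left h4, abs_of_nonneg h4]
          ring
      · rw [h]
        rcases le_total (Del J lam β b H N x a) 0 with h4 | h4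
        · rw [max_eq_left (by linarith), abs_of_nonpos h4]
          ring
        · rw [max_eq_right (by linarith), abs_of_nonneg h4]
          ring
    rw [h3]
    rw [abs_le] at h2
    rcases hσ with h | h
    · rw [h]
      linarith
    · rw [h]
      linarith
  have h2 : ∀ j0 ∈ range l, ‖MM J lam β b l H s‖ * ‖WW b l N s x j0‖ ≤
      2 * ∑ a ∈ range H, max (σ * Del J lam β b H N x a) 0 +
        11 * |(s : ℝ)| * Lam J lam * N + 2 * l ^ 2 * Lam J lam * H := by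
    intro j0 hj0
    have h3 := TT_main J lam β b l H hb hl s hs hH hsH hβ N x j0
    have h4 := TT_le J lam β b l H hb s hs hH hsH N x j0 (mem_range.1 hj0)
    rw [← norm_mul, mul_comm]
    have h5 := norm_sub_norm_le (WW b l N s x j0 * MM J lam β b l H s)
      (TT J lam β b H N x (s * (b : ℤ) ^ j0))
    rw [norm_sub_rev] at h5
    have h6 : Lam J lam * N ≤ Lam J lam * N * |(s : ℝ)| :=
      le_mul_of_one_le_right (by positivity) hs1
    nlinarith
  rw [← WW_sum b l N hl s x]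
  calc ‖MM J lam β b l H s‖ * ‖∑ j0 ∈ range l, WW b l N s x j0‖ ≤
        ‖MM J lam β b l H s‖ * ∑ j0 ∈ range l, ‖WW b l N s x j0‖ :=
        mul_le_mul_of_nonneg_left (norm_sum_le _ _) (norm_nonneg _)
    _ = ∑ j0 ∈ range l, ‖MM J lam β b l H s‖ * ‖WW b l N s x j0‖ := mul_sum _ _ _
    _ ≤ _ := sum_le_sum h2
    _ = _ := by rw [sum_const, card_range, nsmul_eq_mul]

end

end

end Pool.Agent.N304.NT
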