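import Pool.Agent.N304.NT.C

/-! # The limit of the main coefficient -/

set_option autoImplicit false

namespace Pool.Agent.N304.NT

open Finset Filter Topology
open scoped Real
open Pool.Agent.H534R3.UDist (ee norm_ee)

theorem hasDerivAt_ee (c : ℝ) : HasDerivAt (fun u : ℝ => ee (c * u)) (2 * π * Complex.I * c) 0 := by
  have h1 : HasDerivAt (fun u : ℝ => (2 * π * Complex.I * c) * (u : ℂ)) (2 * π * Complex.I * c) 0 := by
    have := (Complex.ofRealCLM.hasDerivAt (x := (0 : ℝ))).const_mul (2 * π * Complex.I * c)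
    simpa using this
  have h2 := h1.cexp
  have e : (fun u : ℝ => ee (c * u)) = fun u : ℝ => Complex.exp ((2 * π * Complex.I * c) * (u : ℂ)) := by
    funext u
    rw [ee]
    congr 1
    push_cast
    ring
  rw [e]
  simpa using h2

theorem tendsto_ee_slope (c : ℝ) (v : ℕ → ℕ) (hv : Tendsto v atTop atTop) :
    Tendsto (fun l : ℕ => ((v l : ℕ) : ℂ) * (ee (c / (v l : ℝ)) - 1)) atTop
      (𝓝 (2 * π * Complex.I * c)) := by
  have h1 := (hasDerivAt_ee c).tendsto_slope_zero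
  have hv' : Tendsto (fun l => (v l : ℝ)) atTop atTop := tendsto_natCast_atTop_atTop.comp hv
  have h2 : Tendsto (fun l => ((v l : ℝ))⁻¹) atTop (𝓝[≠] 0) := by
    rw [tendsto_nhdsWithin_iff]
    refine ⟨tendsto_inv_atTop_zero.comp hv', ?_⟩
    filter_upwards [hv'.eventually_gt_atTop 0] with l hl
    exact inv_ne_zero hl.ne'
  have h3 := h1.comp h2
  refine h3.congr fun l => ?_
  simp only [Function.comp_apply, zero_add, mul_zero, inv_inv, ee_zero, Complex.real_smul]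
  push_cast
  rw [div_eq_mul_inv]

/-- the limit of one sum -/
theorem tendsto_DK (β : ℝ) (h0 : 0 ≤ β) (t : ℤ) (ht : t ≠ 0) (v : ℕ → ℕ)
    (hv : Tendsto v atTop atTop) :
    Tendsto (fun l : ℕ => DK (v l) ⌊β * (v l : ℝ)⌋₊ t / ((v l : ℕ) : ℂ)) atTop
      (𝓝 ((1 - ee (-((t : ℝ) * β))) / (2 * π * Complex.I * t))) := by
  have hv' : Tendsto (fun l => (v l : ℝ)) atTop atTop := tendsto_natCast_atTop_atTop.comp hv
  have h1 := tendsto_ee_slope (-(t : ℝ)) v hv
  have h2 : Tendsto (fun l : ℕ => (⌊β * (v l : ℝ)⌋₊ : ℝ) / (v l : ℝ)) atTop (𝓝 β) :=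
    (tendsto_nat_floor_mul_div_atTop h0).comp hv'
  have hcont : Continuous (fun u : ℝ => ee (-((t : ℝ) * u))) := by
    unfold ee
    fun_prop
  have h3 : Tendsto (fun l : ℕ => ee (-((t : ℝ) * ((⌊β * (v l : ℝ)⌋₊ : ℝ) / (v l : ℝ)))) - 1) atTop
      (𝓝 (ee (-((t : ℝ) * β)) - 1)) := ((hcont.tendsto β).comp h2).sub_const 1
  have hne : (2 * π * Complex.I * ((-(t : ℝ) : ℝ) : ℂ)) ≠ 0 := by
    have hpi : (π : ℂ) ≠ 0 := by exact_mod_cast Real.pi_ne_zero
    simp [hpi, Complex.I_ne_zero, ht]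
  have h4 := h3.div h1 hne
  have e : (ee (-((t : ℝ) * β)) - 1) / (2 * π * Complex.I * ((-(t : ℝ) : ℝ) : ℂ)) =
      (1 - ee (-((t : ℝ) * β))) / (2 * π * Complex.I * t) := by
    push_cast
    rw [mul_neg, div_neg, ← neg_div]
    congr 1
    ring
  rw [e] at h4
  have hev : ∀ᶠ l in atTop, ee (-(t : ℝ) / (v l : ℝ)) - 1 ≠ 0 := by
    have h5 : ∀ᶠ l in atTop, ((v l : ℕ) : ℂ) * (ee (-(t : ℝ) / (v l : ℝ)) - 1) ≠ 0 :=
      h1.eventually_ne hne
    filter_upwards [h5] with l hl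
    exact right_ne_zero_of_mul hl
  refine h4.congr' ?_
  filter_upwards [hev, hv'.eventually_gt_atTop 0] with l hl hl0
  have hvC : ((v l : ℕ) : ℂ) ≠ 0 := by exact_mod_cast hl0.ne'
  have h6 := DK_geom (v l) ⌊β * (v l : ℝ)⌋₊ t
  have e1 : ee (-((t : ℝ) / (v l : ℝ))) = ee (-(t : ℝ) / (v l : ℝ)) := by
    congr 1
    ring
  have e2 : ee (-((t : ℝ) * (⌊β * (v l : ℝ)⌋₊ : ℝ) / (v l : ℝ))) =
      ee (-((t : ℝ) * ((⌊β * (v l : ℝ)⌋₊ : ℝ) / (v l : ℝ)))) := by
    congr 1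
    ring
  rw [e1, e2] at h6
  show (ee (-((t : ℝ) * ((⌊β * (v l : ℝ)⌋₊ : ℝ) / (v l : ℝ)))) - 1) /
    (((v l : ℕ) : ℂ) * (ee (-(t : ℝ) / (v l : ℝ)) - 1)) = _
  rw [← h6, mul_comm ((v l : ℕ) : ℂ), mul_div_mul_left _ _ hl]

section
variable {ι : Type} (J : Finset ι) (lam β : ι → ℝ)

/-- the Fourier coefficients of the step function -/
noncomputable def fhat (t : ℤ) : ℂ :=
  ∑ j ∈ J, (lam j : ℂ) * ((1 - ee (-((t : ℝ) * β j))) / (2 * π * Complex.I * t))

/-- the limit of the main coefficient -/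
noncomputable def CC (b : ℕ) (s : ℤ) : ℂ := ∑' k : ℕ, fhat J lam β (s * (b : ℤ) ^ k)

theorem pow_sub_tendsto (b : ℕ) (hb : 2 ≤ b) : Tendsto (fun l : ℕ => b ^ l - 1) atTop atTop :=
  (tendsto_sub_atTop_nat 1).comp (tendsto_pow_atTop_atTop_of_one_lt (by omega))

theorem tendsto_MM (b : ℕ) (hb : 2 ≤ b) (s : ℤ) (hs : ¬ (b : ℤ) ∣ s)
    (hβ : ∀ j ∈ J, 0 ≤ β j ∧ β j ≤ 1) :
    Tendsto (fun l : ℕ => MM J lam β b l (b ^ l - 1) s / ((b ^ l - 1 : ℕ) : ℂ)) atTop
      (𝓝 (CC J lam β b s)) := by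
  have hs1 := one_le_abs_of hs
  have hbR : (2 : ℝ) ≤ b := by exact_mod_cast hb
  have hv := pow_sub_tendsto b hb
  set f : ℕ → ℕ → ℂ := fun l k => if k < l then
    DF J lam β (b ^ l - 1) (s * (b : ℤ) ^ k) / ((b ^ l - 1 : ℕ) : ℂ) else 0 with hf
  have hsum : Summable (fun k : ℕ => Lam J lam * (4 * |(s : ℝ)|) * (1 / (b : ℝ)) ^ k) := by
    apply Summable.mul_left
    apply summable_geometric_of_lt_one (by positivity)
    rw [div_lt_one (by linarith)]
    linarith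
  have hlim : ∀ k, Tendsto (fun l => f l k) atTop (𝓝 (fhat J lam β (s * (b : ℤ) ^ k))) := by
    intro k
    have ht : s * (b : ℤ) ^ k ≠ 0 := by
      apply mul_ne_zero
      · rintro rfl
        exact hs (dvd_zero _)
      · have : (b : ℤ) ≠ 0 := by omega
        exact pow_ne_zero _ this
    have h1 : Tendsto (fun l : ℕ => ∑ j ∈ J, (lam j : ℂ) *
        (DK (b ^ l - 1) ⌊β j * ((b ^ l - 1 : ℕ) : ℝ)⌋₊ (s * (b : ℤ) ^ k) /
          ((b ^ l - 1 : ℕ) : ℂ))) atTop (𝓝 (fhat J lam β (s * (b : ℤ) ^ k))) := by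
      apply tendsto_finsetSum
      intro j hj
      exact (tendsto_DK (β j) (hβ j hj).1 _ ht _ hv).const_mul _
    refine h1.congr' ?_
    filter_upwards [eventually_gt_atTop k] with l hl
    simp only [hf]
    rw [if_pos hl]
    unfold DF
    rw [sum_div]
    refine sum_congr rfl fun j _ => ?_
    ring
  have hbound : ∀ᶠ l in atTop, ∀ k, ‖f l k‖ ≤
      Lam J lam * (4 * |(s : ℝ)|) * (1 / (b : ℝ)) ^ k := by
    have hv' : Tendsto (fun l : ℕ => ((b ^ l - 1 : ℕ) : ℝ)) atTop atTop :=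
      tendsto_natCast_atTop_atTop.comp hv
    filter_upwards [hv'.eventually_ge_atTop (2 * |(s : ℝ)|)] with l hl k
    simp only [hf]
    have hΛ := Lam_nonneg J lam
    split_ifs with hk
    · have hH : (b ^ l - 1) + 1 = b ^ l := Nat.sub_add_cancel (Nat.one_le_pow _ _ (by omega))
      have hH0 : (0 : ℝ) < ((b ^ l - 1 : ℕ) : ℝ) := by linarith
      rw [norm_div, Complex.norm_natCast, div_le_iff₀ hH0]
      refine (DF_le J lam β b l k _ hb s hs hk hH hl).trans (le_of_eq ?_)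
      rw [one_div_pow]
      ring
    · rw [norm_zero]
      positivity
  have h := tendsto_tsum_of_dominated_convergence hsum hlim hbound
  refine h.congr fun l => ?_
  rw [tsum_eq_sum (s := range l)]
  · unfold MM
    rw [sum_div]
    refine sum_congr rfl fun k hk => ?_
    simp only [hf]
    rw [if_pos (mem_range.1 hk)]
  · intro k hk
    simp only [hf]
    rw [if_neg (fun h => hk (mem_range.2 h))]

end

end Pool.Agent.N304.NT
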