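import Pool.Agent.N304.NT.NV

/-! # Exponential sums from one-sided conditions -/

set_option autoImplicit false

namespace Pool.Agent.N304.NT

open Finset Filter Topology
open scoped Real
open Pool.Agent.H534R3.UDist (ee norm_ee)

theorem l_over_H (b : ℕ) (hb : 2 ≤ b) (c : ℝ) (hc : 0 < c) :
    ∀ᶠ l : ℕ in atTop, (l : ℝ) ≤ c * ((b ^ l - 1 : ℕ) : ℝ) := by
  have hbR : (2 : ℝ) ≤ b := by exact_mod_cast hb
  have h1 := tendsto_pow_const_div_const_pow_of_one_lt 1 (r := (b : ℝ)) (by linarith)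
  filter_upwards [h1.eventually (gt_mem_nhds (show (0 : ℝ) < c / 2 by positivity)),
    eventually_ge_atTop 1] with l hl hl1
  rw [pow_one, div_lt_iff₀ (by positivity)] at hl
  have h2 : (2 : ℝ) ≤ (b : ℝ) ^ l := by
    calc (2 : ℝ) ≤ b := hbR
      _ = (b : ℝ) ^ 1 := (pow_one _).symm
      _ ≤ (b : ℝ) ^ l := pow_le_pow_right₀ (by linarith) hl1
  have h3 : ((b ^ l - 1 : ℕ) : ℝ) = (b : ℝ) ^ l - 1 := by
    rw [Nat.cast_sub (Nat.one_le_pow _ _ (by omega))]
    push_cast
    ring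
  rw [h3]
  nlinarith

section
variable {ι : Type} (J : Finset ι) (lam β : ι → ℝ) (b : ℕ) (hb : 2 ≤ b)
  (hβ : ∀ j ∈ J, 0 ≤ β j ∧ β j ≤ 1)

include hb hβ in
theorem MM_lower (s : ℤ) (hs : ¬ (b : ℤ) ∣ s) (hC : CC J lam β b s ≠ 0) :
    ∀ᶠ l : ℕ in atTop, ‖CC J lam β b s‖ / 2 * ((b ^ l - 1 : ℕ) : ℝ) ≤
      ‖MM J lam β b l (b ^ l - 1) s‖ := by
  have h1 := (tendsto_MM J lam β b hb s hs hβ).norm
  have hC0 : 0 < ‖CC J lam β b s‖ := norm_pos_iff.2 hC
  filter_upwards [h1.eventually (lt_mem_nhds (show ‖CC J lam β b s‖ / 2 < ‖CC J lam β b s‖ by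
    linarith)), eventually_ge_atTop 1] with l hl hl1
  have hH : 0 < b ^ l - 1 := by
    have : b ^ 1 ≤ b ^ l := Nat.pow_le_pow_right (by omega) hl1
    rw [pow_one] at this
    omega
  have hHR : (0 : ℝ) < ((b ^ l - 1 : ℕ) : ℝ) := by exact_mod_cast hH
  rw [norm_div, Complex.norm_natCast, lt_div_iff₀ hHR] at hl
  exact hl.le

include hb hβ in
theorem one_sided (σ : ℝ) (hσ : σ = 1 ∨ σ = -1) (L : Set ℕ) (hL : L.Infinite) (x : ℝ)
    (h : ∀ l ∈ L, ∀ a < b ^ l - 1, ∀ ε : ℝ, 0 < ε →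
      ∀ᶠ N : ℕ in atTop, σ * Del J lam β b (b ^ l - 1) N x a ≤ ε * N)
    (s : ℤ) (hs : ¬ (b : ℤ) ∣ s) (hC : CC J lam β b s ≠ 0) :
    Tendsto (fun N : ℕ => ‖∑ n ∈ range N, ee ((s : ℝ) * (b : ℝ) ^ n * x)‖ / (N : ℝ)) atTop
      (𝓝 0) := by
  have hs1 := one_le_abs_of hs
  have hΛ := Lam_nonneg J lam
  set C := ‖CC J lam β b s‖ with hCdef
  have hC0 : 0 < C := norm_pos_iff.2 hC
  rw [Metric.tendsto_atTop]
  intro η hη
  have hv' : Tendsto (fun l : ℕ => ((b ^ l - 1 : ℕ) : ℝ)) atTop atTop :=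
    tendsto_natCast_atTop_atTop.comp (pow_sub_tendsto b hb)
  set c1 : ℝ := C * η / (88 * |(s : ℝ)| * (Lam J lam + 1)) with hc1
  have hc1pos : 0 < c1 := by positivity
  obtain ⟨l, hlL, hl⟩ := ((Nat.frequently_atTop_iff_infinite.2 hL).and_eventually
    ((MM_lower J lam β b hb hβ s hs hC).and ((l_over_H b hb c1 hc1pos).and
      ((hv'.eventually_ge_atTop (2 * |(s : ℝ)|)).and (eventually_ge_atTop 1))))).exists
  obtain ⟨hM, hlH, hsH, hl1⟩ := hl
  set H := b ^ l - 1 with hHdef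
  have hH : H + 1 = b ^ l := Nat.sub_add_cancel (Nat.one_le_pow _ _ (by omega))
  have hHR : (0 : ℝ) < H := by linarith
  have hlR : (1 : ℝ) ≤ l := by exact_mod_cast hl1
  set ε : ℝ := C * η / (16 * l) with hε
  have hεpos : 0 < ε := by positivity
  have hall : ∀ᶠ N : ℕ in atTop, ∀ a ∈ range H, σ * Del J lam β b H N x a ≤ ε * N := by
    rw [eventually_all_finset]
    intro a ha
    exact h l hlL a (mem_range.1 ha) ε hεpos
  set C2 : ℝ := 2 * l ^ 3 * Lam J lam with hC2
  obtain ⟨N0, hN0⟩ := exists_nat_gt (8 * C2 / (C * η))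
  obtain ⟨N1, hN1⟩ := eventually_atTop.1 hall
  refine ⟨max (N0 + 1) N1, fun N hN => ?_⟩
  have hNa := hN1 N ((le_max_right _ _).trans hN)
  have hNb : (N0 : ℝ) + 1 ≤ N := by exact_mod_cast (le_max_left _ _).trans hN
  have hNpos : (0 : ℝ) < N := by
    have : (0 : ℝ) ≤ N0 := Nat.cast_nonneg _
    linarith
  have hNC : C2 ≤ C * η / 8 * N := by
    have h1 : 8 * C2 / (C * η) ≤ N := by linarith
    rw [div_le_iff₀ (by positivity)] at h1
    linarith
  rw [Real.dist_eq, sub_zero, abs_of_nonneg (by positivity), div_lt_iff₀ hNpos]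
  have h1 := main_ineq J lam β b l H hb hl1 s hs hH hsH hβ N x σ hσ
  set S := ‖∑ n ∈ range N, ee ((s : ℝ) * (b : ℝ) ^ n * x)‖ with hS
  have hS0 : 0 ≤ S := norm_nonneg _
  have h2 : ∑ a ∈ range H, max (σ * Del J lam β b H N x a) 0 ≤ H * (ε * N) := by
    refine (sum_le_sum fun a ha => max_le (hNa a ha) (by positivity)).trans (le_of_eq ?_)
    rw [sum_const, card_range, nsmul_eq_mul]
  have h3 : C / 2 * H * S ≤ ‖MM J lam β b l H s‖ * S := mul_le_mul_of_nonneg_right hM hS0
  have h4 : C / 2 * H * S ≤ l * (2 * (H * (ε * N)) + 11 * |(s : ℝ)| * Lam J lam * N +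
      2 * l ^ 2 * Lam J lam * H) := by
    refine h3.trans (h1.trans ?_)
    apply mul_le_mul_of_nonneg_left _ (by linarith)
    linarith
  have e1 : (l : ℝ) * (2 * (H * (ε * N))) = C * η / 8 * N * H := by
    rw [hε]
    field_simp
    norm_num
  have e2 : (l : ℝ) * (11 * |(s : ℝ)| * Lam J lam * N) ≤ C * η / 8 * N * H := by
    have h5 : (l : ℝ) * (11 * |(s : ℝ)| * Lam J lam * N) ≤
        c1 * H * (11 * |(s : ℝ)| * Lam J lam * N) :=
      mul_le_mul_of_nonneg_right hlH (by positivity)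
    refine h5.trans ?_
    have h6 : c1 * H * (11 * |(s : ℝ)| * Lam J lam * N) ≤
        c1 * H * (11 * |(s : ℝ)| * (Lam J lam + 1) * N) := by
      apply mul_le_mul_of_nonneg_left _ (by positivity)
      apply mul_le_mul_of_nonneg_right _ hNpos.le
      apply mul_le_mul_of_nonneg_left _ (by positivity)
      linarith
    refine h6.trans (le_of_eq ?_)
    rw [hc1]
    field_simp
    norm_num
  have e3 : (l : ℝ) * (2 * l ^ 2 * Lam J lam * H) ≤ C * η / 8 * N * H := by
    have : (l : ℝ) * (2 * l ^ 2 * Lam J lam * H) = C2 * H := by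
      rw [hC2]
      ring
    rw [this]
    exact mul_le_mul_of_nonneg_right hNC hHR.le
  have h5 : C / 2 * H * S ≤ 3 * (C * η / 8 * N * H) := by
    rw [mul_add, mul_add, e1] at h4
    linarith
  have h6 : S ≤ 3 / 4 * (η * N) := by
    have h7 : (C / 2 * H) * S ≤ (C / 2 * H) * (3 / 4 * (η * N)) := by
      refine h5.trans (le_of_eq ?_)
      ring
    exact le_of_mul_le_mul_left h7 (by positivity)
  have h7 : 0 < η * N := by positivity
  linarith

theorem ff_abs (y : ℝ) : |ff J lam β y| ≤ Lam J lam := by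
  unfold ff Lam
  refine (abs_sum_le_sum_abs _ _).trans (sum_le_sum fun j _ => ?_)
  rw [abs_mul]
  apply mul_le_of_le_one_right (abs_nonneg _)
  rw [abs_of_nonneg (ind_nonneg _ _)]
  exact ind_le_one _ _

include hβ in
theorem Del_abs (H N : ℕ) (x : ℝ) (a : ℕ) : |Del J lam β b H N x a| ≤ 2 * Lam J lam * N := by
  have h1 : |FF J lam β b H N x a| ≤ Lam J lam * N := by
    unfold FF
    refine (abs_sum_le_sum_abs _ _).trans ((sum_le_sum fun n _ => ff_abs J lam β _).trans
      (le_of_eq ?_))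
    rw [sum_const, card_range, nsmul_eq_mul, mul_comm]
  have h2 : |fm J lam β| ≤ Lam J lam := by
    unfold fm Lam
    refine (abs_sum_le_sum_abs _ _).trans (sum_le_sum fun j hj => ?_)
    rw [abs_mul]
    apply mul_le_of_le_one_right (abs_nonneg _)
    rw [abs_of_nonneg (hβ j hj).1]
    exact (hβ j hj).2
  unfold Del
  have hN : (0 : ℝ) ≤ N := Nat.cast_nonneg _
  have h3 : |(N : ℝ) * fm J lam β| ≤ Lam J lam * N := by
    rw [abs_mul, abs_of_nonneg hN, mul_comm]
    exact mul_le_mul_of_nonneg_right h2 hN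
  have h4 := abs_sub (FF J lam β b H N x a) (N * fm J lam β)
  linarith

open Classical in
include hb hβ in
/-- many translates have a large deviation, if an exponential sum is large infinitely often -/
theorem many (σ : ℝ) (hσ : σ = 1 ∨ σ = -1) (x : ℝ) (s : ℤ) (hs : ¬ (b : ℤ) ∣ s)
    (hC : CC J lam β b s ≠ 0) (η : ℝ) (hη : 0 < η)
    (h : ∃ᶠ N : ℕ in atTop, η * N ≤ ‖∑ n ∈ range N, ee ((s : ℝ) * (b : ℝ) ^ n * x)‖) :
    ∃ c : ℝ, 0 < c ∧ ∀ᶠ l : ℕ in atTop,
      c / l * ((b ^ l - 1 : ℕ) : ℝ) ≤ (((range (b ^ l - 1)).filter fun a : ℕ =>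
        ∃ᶠ N : ℕ in atTop, c / l * N ≤ σ * Del J lam β b (b ^ l - 1) N x a).card : ℝ) := by
  have hs1 := one_le_abs_of hs
  have hΛ := Lam_nonneg J lam
  set C := ‖CC J lam β b s‖ with hCdef
  have hC0 : 0 < C := norm_pos_iff.2 hC
  set c : ℝ := C * η / (16 * (Lam J lam + 1)) with hc
  have hcpos : 0 < c := by positivity
  have hv' : Tendsto (fun l : ℕ => ((b ^ l - 1 : ℕ) : ℝ)) atTop atTop :=
    tendsto_natCast_atTop_atTop.comp (pow_sub_tendsto b hb)
  set c1 : ℝ := C * η / (176 * |(s : ℝ)| * (Lam J lam + 1)) with hc1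
  have hc1pos : 0 < c1 := by positivity
  refine ⟨c, hcpos, ?_⟩
  filter_upwards [MM_lower J lam β b hb hβ s hs hC, l_over_H b hb c1 hc1pos,
    hv'.eventually_ge_atTop (2 * |(s : ℝ)|), eventually_ge_atTop 1] with l hM hlH hsH hl1
  set H := b ^ l - 1 with hHdef
  have hH : H + 1 = b ^ l := Nat.sub_add_cancel (Nat.one_le_pow _ _ (by omega))
  have hHR : (0 : ℝ) < H := by linarith
  have hlR : (1 : ℝ) ≤ l := by exact_mod_cast hl1
  set lam0 : ℝ := c / l with hlam0
  have hlampos : 0 < lam0 := by positivity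
  set G := (range H).filter fun a : ℕ =>
    ∃ᶠ N : ℕ in atTop, lam0 * N ≤ σ * Del J lam β b H N x a with hG
  have hout : ∀ᶠ N : ℕ in atTop, ∀ a ∈ (range H) \ G, σ * Del J lam β b H N x a ≤ lam0 * N := by
    rw [eventually_all_finset]
    intro a ha
    rw [Finset.mem_sdiff, hG, mem_filter, not_and] at ha
    have h1 := ha.2 ha.1
    rw [not_frequently] at h1
    filter_upwards [h1] with N hN
    exact (not_le.1 hN).le
  set C2 : ℝ := 2 * l ^ 3 * Lam J lam with hC2
  obtain ⟨N0, hN0⟩ := exists_nat_gt (16 * C2 / (C * η))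
  obtain ⟨N, hNS, hNout, hNb⟩ := (h.and_eventually (hout.and (eventually_ge_atTop (N0 + 1)))).exists
  have hNb' : (N0 : ℝ) + 1 ≤ N := by exact_mod_cast hNb
  have hNpos : (0 : ℝ) < N := by
    have : (0 : ℝ) ≤ N0 := Nat.cast_nonneg _
    linarith
  have hNC : C2 ≤ C * η / 16 * N := by
    have h1 : 16 * C2 / (C * η) ≤ N := by linarith
    rw [div_le_iff₀ (by positivity)] at h1
    linarith
  have h1 := main_ineq J lam β b l H hb hl1 s hs hH hsH hβ N x σ hσ
  have hσ1 : |σ| = 1 := by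
    rcases hσ with h | h <;> rw [h] <;> norm_num
  have h2 : ∑ a ∈ range H, max (σ * Del J lam β b H N x a) 0 ≤
      G.card * (2 * Lam J lam * N) + H * (lam0 * N) := by
    have hGsub : G ⊆ range H := filter_subset _ _
    rw [← sum_sdiff hGsub, add_comm]
    apply add_le_add
    · refine (sum_le_sum (g := fun _ => 2 * Lam J lam * N) fun a _ =>
        max_le ?_ (by positivity)).trans (le_of_eq ?_)
      · refine (le_abs_self _).trans ?_
        rw [abs_mul, hσ1, one_mul]
        exact Del_abs J lam β b hβ H N x a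
      · rw [sum_const, nsmul_eq_mul]
    · refine (sum_le_sum fun a ha => max_le (hNout a ha) (by positivity)).trans ?_
      rw [sum_const, nsmul_eq_mul]
      apply mul_le_mul_of_nonneg_right _ (by positivity)
      have := card_le_card (Finset.sdiff_subset (s := range H) (t := G))
      rw [card_range] at this
      exact_mod_cast this
  have h3 : C / 2 * H * (η * N) ≤ l * (2 * (G.card * (2 * Lam J lam * N) + H * (lam0 * N)) +
      11 * |(s : ℝ)| * Lam J lam * N + 2 * l ^ 2 * Lam J lam * H) := by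
    calc C / 2 * H * (η * N) ≤ ‖MM J lam β b l H s‖ *
          ‖∑ n ∈ range N, ee ((s : ℝ) * (b : ℝ) ^ n * x)‖ :=
          mul_le_mul hM hNS (by positivity) (norm_nonneg _)
      _ ≤ _ := h1
      _ ≤ _ := by
          apply mul_le_mul_of_nonneg_left _ (by linarith)
          linarith
  have hll : (l : ℝ) * lam0 = c := by
    rw [hlam0]
    field_simp
  have hcle : c ≤ C * η / 16 := by
    rw [hc, div_le_div_iff₀ (by positivity) (by norm_num)]
    have : 0 ≤ C * η * Lam J lam := by positivity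
    nlinarith
  have e1 : (l : ℝ) * (2 * (H * (lam0 * N))) ≤ C * η / 8 * N * H := by
    have : (l : ℝ) * (2 * (H * (lam0 * N))) = 2 * ((l : ℝ) * lam0) * (N * H) := by ring
    rw [this, hll]
    have h5 : 0 ≤ (N : ℝ) * H := by positivity
    nlinarith
  have e2 : (l : ℝ) * (11 * |(s : ℝ)| * Lam J lam * N) ≤ C * η / 16 * N * H := by
    have h5 : (l : ℝ) * (11 * |(s : ℝ)| * Lam J lam * N) ≤
        c1 * H * (11 * |(s : ℝ)| * Lam J lam * N) :=
      mul_le_mul_of_nonneg_right hlH (by positivity)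
    refine h5.trans ?_
    have h6 : c1 * H * (11 * |(s : ℝ)| * Lam J lam * N) ≤
        c1 * H * (11 * |(s : ℝ)| * (Lam J lam + 1) * N) := by
      apply mul_le_mul_of_nonneg_left _ (by positivity)
      apply mul_le_mul_of_nonneg_right _ hNpos.le
      apply mul_le_mul_of_nonneg_left _ (by positivity)
      linarith
    refine h6.trans (le_of_eq ?_)
    rw [hc1]
    field_simp
    norm_num
  have e3 : (l : ℝ) * (2 * l ^ 2 * Lam J lam * H) ≤ C * η / 16 * N * H := by
    have : (l : ℝ) * (2 * l ^ 2 * Lam J lam * H) = C2 * H := by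
      rw [hC2]
      ring
    rw [this]
    exact mul_le_mul_of_nonneg_right hNC hHR.le
  have h4 : C * η / 4 * H ≤ 4 * l * Lam J lam * G.card := by
    have h5 : C * η / 4 * H * N ≤ 4 * l * Lam J lam * G.card * N := by
      have e4 : C / 2 * H * (η * N) = C * η / 2 * (N * H) := by ring
      have e5 : (l : ℝ) * (2 * (G.card * (2 * Lam J lam * N) + H * (lam0 * N)) +
          11 * |(s : ℝ)| * Lam J lam * N + 2 * l ^ 2 * Lam J lam * H) =
          4 * l * Lam J lam * G.card * N + (l : ℝ) * (2 * (H * (lam0 * N))) +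
          (l : ℝ) * (11 * |(s : ℝ)| * Lam J lam * N) + (l : ℝ) * (2 * l ^ 2 * Lam J lam * H) := by
        ring
      rw [e4, e5] at h3
      have e6 : C * η / 4 * H * N = C * η / 2 * (N * H) - C * η / 8 * N * H - C * η / 16 * N * H -
          C * η / 16 * N * H := by ring
      rw [e6]
      linarith
    exact le_of_mul_le_mul_right h5 hNpos
  have h5 : 4 * l * Lam J lam * G.card ≤ 4 * l * (Lam J lam + 1) * G.card := by
    apply mul_le_mul_of_nonneg_right _ (Nat.cast_nonneg _)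
    apply mul_le_mul_of_nonneg_left _ (by positivity)
    linarith
  have h6 : lam0 * H = C * η / 4 * H / (4 * l * (Lam J lam + 1)) := by
    rw [hlam0, hc]
    field_simp
    norm_num
  rw [h6, div_le_iff₀ (by positivity)]
  linarith

end

end Pool.Agent.N304.NT
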