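import Pool.Agent.N304.NT.Words

/-! # Normality and the frequency of one set in the rational affine images -/

set_option autoImplicit false

namespace Pool.Agent.N304.NT

open Finset Filter Topology
open Pool.Agent.H534R3.UDist (ee norm_ee UD Weyl ud_of_weyl)
open Pool.Agent.H534R3.Rota (ud_weyl)
open Pool.Agent.N915.WT (wall)

/-- `I` is a finite set of disjoint intervals `[s, t)` in `[0, 1)` -/
def IsSet (I : Finset (ℝ × ℝ)) : Prop :=
  (∀ p ∈ I, 0 ≤ p.1 ∧ p.1 < p.2 ∧ p.2 ≤ 1) ∧ ∀ p ∈ I, ∀ q ∈ I, p ≠ q → p.2 ≤ q.1 ∨ q.2 ≤ p.1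

/-- the total length of the intervals -/
noncomputable def len (I : Finset (ℝ × ℝ)) : ℝ := ∑ p ∈ I, (p.2 - p.1)

open Classical in
/-- the number of `n < N` for which the fractional part of `x b ^ n` lies in the union of the
intervals -/
noncomputable def hits (b : ℕ) (x : ℝ) (I : Finset (ℝ × ℝ)) (N : ℕ) : ℕ :=
  ((range N).filter fun n : ℕ => ∃ p ∈ I, p.1 ≤ Int.fract (x * (b : ℝ) ^ n) ∧
    Int.fract (x * (b : ℝ) ^ n) < p.2).card

section
variable (I : Finset (ℝ × ℝ)) (hI : IsSet I)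

/-- the indices of the step function -/
def JJ : Finset ((ℝ × ℝ) × Bool) := I ×ˢ (univ : Finset Bool)

def lamI (p : (ℝ × ℝ) × Bool) : ℝ := if p.2 then 1 else -1

def betI (p : (ℝ × ℝ) × Bool) : ℝ := if p.2 then p.1.2 else p.1.1

theorem sum_JJ (g : (ℝ × ℝ) × Bool → ℝ) :
    ∑ j ∈ JJ I, lamI j * g j = ∑ p ∈ I, (g (p, true) - g (p, false)) := by
  unfold JJ
  rw [sum_product]
  refine sum_congr rfl fun p _ => ?_
  rw [Fintype.sum_bool]
  simp [lamI]
  ring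

include hI in
theorem bet_bounds : ∀ j ∈ JJ I, 0 ≤ betI j ∧ betI j ≤ 1 := by
  rintro ⟨p, c⟩ hj
  have hp : p ∈ I := (mem_product.1 hj).1
  obtain ⟨h1, h2, h3⟩ := hI.1 p hp
  cases c
  · show 0 ≤ p.1 ∧ p.1 ≤ 1
    constructor <;> linarith
  · show 0 ≤ p.2 ∧ p.2 ≤ 1
    constructor <;> linarith

theorem fm_eq : fm (JJ I) lamI betI = len I := by
  unfold fm len
  rw [sum_JJ]
  rfl

include hI in
theorem ff_eq (y : ℝ) [Decidable (∃ p ∈ I, p.1 ≤ Int.fract y ∧ Int.fract y < p.2)] :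
    ff (JJ I) lamI betI y =
      if ∃ p ∈ I, p.1 ≤ Int.fract y ∧ Int.fract y < p.2 then 1 else 0 := by
  unfold ff
  rw [sum_JJ]
  have h1 : ∀ p ∈ I, ind (betI (p, true)) y - ind (betI (p, false)) y =
      if p.1 ≤ Int.fract y ∧ Int.fract y < p.2 then 1 else 0 := by
    intro p hp
    obtain ⟨-, h2, -⟩ := hI.1 p hp
    show ind p.2 y - ind p.1 y = _
    unfold ind
    by_cases h3 : Int.fract y < p.1
    · rw [if_pos h3, if_pos (h3.trans h2), if_neg (fun h => absurd h.1 (not_le.2 h3)), sub_self]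
    · by_cases h4 : Int.fract y < p.2
      · rw [if_neg h3, if_pos h4, if_pos ⟨not_lt.1 h3, h4⟩, sub_zero]
      · rw [if_neg h3, if_neg h4, if_neg (fun h => h4 h.2), sub_self]
  rw [sum_congr rfl h1]
  split_ifs with h
  · obtain ⟨p, hp, h2, h3⟩ := h
    rw [sum_eq_single p]
    · rw [if_pos ⟨h2, h3⟩]
    · intro q hq hne
      rw [if_neg]
      rintro ⟨h4, h5⟩
      rcases hI.2 q hq p hp hne with h6 | h6
      · linarith
      · linarith
    · intro h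
      exact absurd hp h
  · exact sum_eq_zero fun p hp => if_neg fun h2 => h ⟨p, hp, h2⟩

include hI in
theorem dd_ne (h0 : 0 < len I) (h1 : len I < 1) : dd (JJ I) lamI betI ≠ 0 := by
  classical
  have e : dd (JJ I) lamI betI = ((I.filter fun p => p.1 = 0).card : ℝ) - len I := by
    unfold dd len
    rw [sum_JJ, card_filter]
    push_cast
    rw [← sum_sub_distrib]
    refine sum_congr rfl fun p hp => ?_
    obtain ⟨h2, h3, h4⟩ := hI.1 p hp
    show ((if 0 < p.2 then (1 : ℝ) else 0) - p.2) - ((if 0 < p.1 then (1 : ℝ) else 0) - p.1) = _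
    rw [if_pos (by linarith)]
    rcases h2.lt_or_eq with h5 | h5
    · rw [if_pos h5, if_neg h5.ne']
      ring
    · rw [← h5, if_neg (lt_irrefl _), if_pos rfl]
      ring
  have hc : (I.filter fun p => p.1 = 0).card ≤ 1 := by
    rw [card_le_one]
    intro p hp q hq
    rw [mem_filter] at hp hq
    by_contra hne
    have h2 := hI.1 p hp.1
    have h3 := hI.1 q hq.1
    rcases hI.2 p hp.1 q hq.1 hne with h4 | h4
    · rw [hq.2] at h4
      linarith [h2.1, h2.2.1]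
    · rw [hp.2] at h4
      linarith [h3.1, h3.2.1]
  rw [e]
  have : (I.filter fun p => p.1 = 0).card = 0 ∨ (I.filter fun p => p.1 = 0).card = 1 := by omega
  rcases this with h2 | h2
  · rw [h2]
    push_cast
    linarith
  · rw [h2]
    push_cast
    linarith

include hI in
theorem FF_eq (b H N : ℕ) (x : ℝ) (a : ℕ) :
    FF (JJ I) lamI betI b H N x a = hits b (x + a / H) I N := by
  classical
  unfold FF hits
  rw [card_filter]
  push_cast
  refine sum_congr rfl fun n _ => ?_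
  rw [ff_eq I hI]

include hI in
theorem Del_eq (b H N : ℕ) (x : ℝ) (a : ℕ) :
    Del (JJ I) lamI betI b H N x a = hits b (x + a / H) I N - N * len I := by
  unfold Del
  rw [FF_eq I hI, fm_eq]

/-! ### uniform distribution -/

theorem ud_affine (b : ℕ) (hb : 2 ≤ b) (x : ℝ) (h : UD fun n => x * (b : ℝ) ^ n) (q r : ℚ)
    (hq : q ≠ 0) : UD fun n => ((q : ℝ) * x + r) * (b : ℝ) ^ n := by
  have e : ∀ y : ℝ, (fun n : ℕ => y * (b : ℝ) ^ n) = fun n : ℕ => (b : ℝ) ^ n * y := by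
    intro y
    funext n
    ring
  rw [e] at h
  have h1 := ud_of_weyl _ (wall hb h q r hq)
  rw [e]
  exact h1

include hI in
theorem hits_tendsto (b : ℕ) (x : ℝ) (h : UD fun n => x * (b : ℝ) ^ n) :
    Tendsto (fun N : ℕ => (hits b x I N : ℝ) / (N : ℝ)) atTop (𝓝 (len I)) := by
  classical
  have h1 : Tendsto (fun N : ℕ => ∑ p ∈ I, (((range N).filter fun n : ℕ =>
      p.1 ≤ Int.fract (x * (b : ℝ) ^ n) ∧ Int.fract (x * (b : ℝ) ^ n) < p.2).card : ℝ) / (N : ℝ))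
      atTop (𝓝 (∑ p ∈ I, (p.2 - p.1))) := by
    apply tendsto_finsetSum
    intro p hp
    obtain ⟨h2, h3, h4⟩ := hI.1 p hp
    exact h p.1 p.2 h2 h3.le h4
  unfold len
  refine h1.congr fun N => ?_
  rw [← sum_div]
  congr 1
  have h2 : (hits b x I N : ℝ) = ∑ n ∈ range N, ff (JJ I) lamI betI (x * (b : ℝ) ^ n) := by
    unfold hits
    rw [card_filter]
    push_cast
    refine sum_congr rfl fun n _ => ?_
    rw [ff_eq I hI]
  have h3 : ∀ n ∈ range N, ff (JJ I) lamI betI (x * (b : ℝ) ^ n) =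
      ∑ p ∈ I, if p.1 ≤ Int.fract (x * (b : ℝ) ^ n) ∧ Int.fract (x * (b : ℝ) ^ n) < p.2
        then 1 else 0 := by
    intro n _
    unfold ff
    rw [sum_JJ]
    refine sum_congr rfl fun p hp => ?_
    obtain ⟨-, h2, -⟩ := hI.1 p hp
    show ind p.2 (x * (b : ℝ) ^ n) - ind p.1 (x * (b : ℝ) ^ n) = _
    unfold ind
    by_cases h3 : Int.fract (x * (b : ℝ) ^ n) < p.1
    · rw [if_pos h3, if_pos (h3.trans h2), if_neg (fun h => absurd h.1 (not_le.2 h3)), sub_self]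
    · by_cases h4 : Int.fract (x * (b : ℝ) ^ n) < p.2
      · rw [if_neg h3, if_pos h4, if_pos ⟨not_lt.1 h3, h4⟩, sub_zero]
      · rw [if_neg h3, if_neg h4, if_neg (fun h => h4 h.2), sub_self]
  rw [h2, sum_congr rfl h3, sum_comm]
  refine sum_congr rfl fun p _ => ?_
  rw [card_filter]
  push_cast
  rfl

theorem ud_of_mult (b : ℕ) (hb : 2 ≤ b) (K : ℕ) (hK : 1 ≤ K) (x : ℝ)
    (h : ∀ h : ℕ, 1 ≤ h → Tendsto (fun N : ℕ =>
      ‖∑ n ∈ range N, ee ((K : ℝ) * (b : ℝ) ^ n * (h * x))‖ / (N : ℝ)) atTop (𝓝 0)) :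
    UD fun n => x * (b : ℝ) ^ n := by
  have hKR : (K : ℝ) ≠ 0 := by exact_mod_cast (by omega : K ≠ 0)
  have h1 : UD fun n => (K * x) * (b : ℝ) ^ n := by
    apply ud_of_weyl
    intro g hg
    refine (h g hg).congr fun N => ?_
    congr 2
    refine sum_congr rfl fun n _ => ?_
    congr 1
    ring
  have h2 := ud_affine b hb (K * x) h1 (1 / (K : ℚ)) 0 (by
    have : (K : ℚ) ≠ 0 := by exact_mod_cast (by omega : K ≠ 0)
    positivity)
  have e : (((1 / (K : ℚ) : ℚ) : ℝ) * (K * x) + ((0 : ℚ) : ℝ)) = x := by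
    push_cast
    field_simp
    ring
  rw [e] at h2
  exact h2

include hI in
theorem ud_of_one_sided (h0 : 0 < len I) (h1 : len I < 1) (b : ℕ) (hb : 2 ≤ b) (q : ℕ)
    (hq : 1 ≤ q) (L : Set ℕ) (hL : L.Infinite) (σ : ℝ) (hσ : σ = 1 ∨ σ = -1) (x : ℝ)
    (h : ∀ m : ℕ, 1 ≤ m → q ∣ m → ∀ l ∈ L, ∀ a < b ^ l - 1, ∀ ε : ℝ, 0 < ε →
      ∀ᶠ N : ℕ in atTop, σ * ((hits b (m * x + a / ((b ^ l - 1 : ℕ) : ℝ)) I N : ℝ) - N * len I) ≤
        ε * N) : UD fun n => x * (b : ℝ) ^ n := by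
  obtain ⟨n0, hn0, hbn, hC⟩ := exists_CC (JJ I) lamI betI b hb (bet_bounds I hI) (dd_ne I hI h0 h1)
  have hs : ¬ (b : ℤ) ∣ (n0 : ℤ) := fun hd => hbn (by exact_mod_cast hd)
  refine ud_of_mult b hb (n0 * q) (Nat.mul_pos (by omega) (by omega)) x fun g hg => ?_
  have h2 := one_sided (JJ I) lamI betI b hb (bet_bounds I hI) σ hσ L hL (((g * q : ℕ) : ℝ) * x)
    (fun l hl a ha ε hε => by
      have h3 := h (g * q) (Nat.mul_pos (by omega) (by omega)) (Dvd.intro_left g rfl) l hl a ha ε hε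
      filter_upwards [h3] with N hN
      rw [Del_eq I hI]
      exact hN) (n0 : ℤ) hs hC
  refine h2.congr fun N => ?_
  congr 2
  refine sum_congr rfl fun n _ => ?_
  congr 1
  push_cast
  ring

open Classical in
include hI in
theorem many_of_not_ud (h0 : 0 < len I) (h1 : len I < 1) (b : ℕ) (hb : 2 ≤ b) (x : ℝ)
    (hx : ¬ UD fun n => x * (b : ℝ) ^ n) : ∃ m : ℕ, 1 ≤ m ∧ ∃ c : ℝ, 0 < c ∧
    ∀ σ : ℝ, σ = 1 ∨ σ = -1 → ∀ᶠ l : ℕ in atTop,
      c / l * ((b ^ l - 1 : ℕ) : ℝ) ≤ (((range (b ^ l - 1)).filter fun a : ℕ =>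
        ∃ᶠ N : ℕ in atTop, c / l * N ≤
          σ * ((hits b (m * x + a / ((b ^ l - 1 : ℕ) : ℝ)) I N : ℝ) - N * len I)).card : ℝ) := by
  obtain ⟨n0, hn0, hbn, hC⟩ := exists_CC (JJ I) lamI betI b hb (bet_bounds I hI) (dd_ne I hI h0 h1)
  have hs : ¬ (b : ℤ) ∣ (n0 : ℤ) := fun hd => hbn (by exact_mod_cast hd)
  obtain ⟨g, hg, hnot⟩ : ∃ g : ℕ, 1 ≤ g ∧ ¬ Tendsto (fun N : ℕ =>
      ‖∑ n ∈ range N, ee ((n0 : ℝ) * (b : ℝ) ^ n * (g * x))‖ / (N : ℝ)) atTop (𝓝 0) := by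
    by_contra hcon
    push Not at hcon
    exact hx (ud_of_mult b hb n0 hn0 x fun g hg => hcon g hg)
  obtain ⟨η, hη, hfreq⟩ : ∃ η : ℝ, 0 < η ∧ ∃ᶠ N : ℕ in atTop,
      η * N ≤ ‖∑ n ∈ range N, ee (((n0 : ℤ) : ℝ) * (b : ℝ) ^ n * (g * x))‖ := by
    by_contra hcon
    push Not at hcon
    apply hnot
    rw [Metric.tendsto_atTop]
    intro ε hε
    have h2 := hcon ε hε
    obtain ⟨N0, hN0⟩ := eventually_atTop.1 h2
    refine ⟨N0 + 1, fun N hN => ?_⟩
    have h3 := hN0 N (by omega)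
    have hNpos : (0 : ℝ) < N := by exact_mod_cast (by omega : 0 < N)
    rw [Real.dist_eq, sub_zero, abs_of_nonneg (by positivity), div_lt_iff₀ hNpos]
    exact h3
  refine ⟨g, hg, ?_⟩
  have hm := fun σ hσ => many (JJ I) lamI betI b hb (bet_bounds I hI) σ hσ (g * x) (n0 : ℤ) hs hC η
    hη hfreq
  obtain ⟨c1, hc1, H1⟩ := hm 1 (Or.inl rfl)
  obtain ⟨c2, hc2, H2⟩ := hm (-1) (Or.inr rfl)
  refine ⟨min c1 c2, lt_min hc1 hc2, fun σ hσ => ?_⟩
  have key : ∀ c' : ℝ, min c1 c2 ≤ c' → ∀ l : ℕ, c' / l * ((b ^ l - 1 : ℕ) : ℝ) ≤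
      (((range (b ^ l - 1)).filter fun a : ℕ => ∃ᶠ N : ℕ in atTop, c' / l * N ≤
        σ * Del (JJ I) lamI betI b (b ^ l - 1) N (g * x) a).card : ℝ) →
      min c1 c2 / l * ((b ^ l - 1 : ℕ) : ℝ) ≤ (((range (b ^ l - 1)).filter fun a : ℕ =>
        ∃ᶠ N : ℕ in atTop, min c1 c2 / l * N ≤
          σ * ((hits b (g * x + a / ((b ^ l - 1 : ℕ) : ℝ)) I N : ℝ) - N * len I)).card : ℝ) := by
    intro c' hc' l hl
    have h3 : min c1 c2 / l ≤ c' / l := div_le_div_of_nonneg_right hc' (Nat.cast_nonneg _)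
    refine (mul_le_mul_of_nonneg_right h3 (Nat.cast_nonneg _)).trans (hl.trans ?_)
    have h4 : ((range (b ^ l - 1)).filter fun a : ℕ => ∃ᶠ N : ℕ in atTop, c' / l * N ≤
        σ * Del (JJ I) lamI betI b (b ^ l - 1) N (g * x) a) ⊆
        ((range (b ^ l - 1)).filter fun a : ℕ =>
        ∃ᶠ N : ℕ in atTop, min c1 c2 / l * N ≤
          σ * ((hits b (g * x + a / ((b ^ l - 1 : ℕ) : ℝ)) I N : ℝ) - N * len I)) := by
      intro a ha
      rw [mem_filter] at ha ⊢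
      refine ⟨ha.1, ha.2.mono fun N hN => ?_⟩
      rw [Del_eq I hI] at hN
      exact (mul_le_mul_of_nonneg_right h3 (Nat.cast_nonneg _)).trans hN
    exact_mod_cast card_le_card h4
  rcases hσ with h | h
  · subst h
    filter_upwards [H1] with l hl
    exact key c1 (min_le_left _ _) l hl
  · subst h
    filter_upwards [H2] with l hl
    exact key c2 (min_le_right _ _) l hl

end

theorem normal_iff_ud (b : ℕ) (hb : 2 ≤ b) (x : ℝ) :
    Normal b x ↔ UD fun n => x * (b : ℝ) ^ n :=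
  ⟨fun h => ud_of_normal b hb x h, fun h k _ => count_tendsto b k (by omega) x h⟩

end Pool.Agent.N304.NT
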