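import Pool.Agent.N304.NT.Fin

/-! # Sets of digits and initial intervals -/

set_option autoImplicit false

namespace Pool.Agent.N304.NT

open Finset Filter Topology
open scoped Real
open Pool.Agent.H534R3.UDist (ee norm_ee UD Weyl ud_of_weyl)
open Pool.Agent.H534R3.Rota (ud_weyl)

/-! ### sets of digits -/

open Classical in
/-- the number of `1 ≤ i ≤ N` for which the `i`-th digit of `x` is in `D` -/
noncomputable def digitCount (b : ℕ) (x : ℝ) (D : Finset ℕ) (N : ℕ) : ℕ :=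
  ((Icc 1 N).filter fun i => ∃ d ∈ D, digit b x i = (d : ℤ)).card

/-- the intervals of the digits -/
noncomputable def ID (b : ℕ) (D : Finset ℕ) : Finset (ℝ × ℝ) :=
  D.image fun d : ℕ => ((d : ℝ) / b, ((d : ℝ) + 1) / b)

theorem ID_inj (b : ℕ) (hb : 2 ≤ b) :
    Function.Injective (fun d : ℕ => (((d : ℝ) / b, ((d : ℝ) + 1) / b) : ℝ × ℝ)) := by
  intro d d' h
  have hb0 : (b : ℝ) ≠ 0 := by positivity
  have h1 : (d : ℝ) / b = d' / b := congrArg Prod.fst h
  have h2 : (d : ℝ) = d' := by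
    field_simp at h1
    exact h1
  exact_mod_cast h2

theorem ID_isSet (b : ℕ) (hb : 2 ≤ b) (D : Finset ℕ) (hD : ∀ d ∈ D, d < b) : IsSet (ID b D) := by
  have hb0 : (0 : ℝ) < b := by positivity
  refine ⟨?_, ?_⟩
  · intro p hp
    obtain ⟨d, hd, rfl⟩ := mem_image.1 hp
    have h1 : (d : ℝ) + 1 ≤ b := by exact_mod_cast hD d hd
    refine ⟨by positivity, div_lt_div_of_pos_right (by linarith) hb0, ?_⟩
    show ((d : ℝ) + 1) / b ≤ 1
    rw [div_le_one hb0]
    exact h1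
  · intro p hp q hq hne
    obtain ⟨d, hd, rfl⟩ := mem_image.1 hp
    obtain ⟨d', hd', rfl⟩ := mem_image.1 hq
    have h1 : d ≠ d' := fun h => hne (by rw [h])
    rcases Nat.lt_or_gt_of_ne h1 with h2 | h2
    · left
      show ((d : ℝ) + 1) / b ≤ (d' : ℝ) / b
      exact div_le_div_of_nonneg_right (by exact_mod_cast h2) hb0.le
    · right
      show ((d' : ℝ) + 1) / b ≤ (d : ℝ) / b
      exact div_le_div_of_nonneg_right (by exact_mod_cast h2) hb0.le

theorem ID_len (b : ℕ) (hb : 2 ≤ b) (D : Finset ℕ) : len (ID b D) = (D.card : ℝ) / b := by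
  unfold len ID
  rw [sum_image fun d _ d' _ h => ID_inj b hb h]
  have : ∀ d ∈ D, ((d : ℝ) + 1) / b - (d : ℝ) / b = 1 / b := fun d _ => by ring
  rw [sum_congr rfl this, sum_const, nsmul_eq_mul, mul_one_div]

theorem digitCount_eq (b : ℕ) (hb : 2 ≤ b) (x : ℝ) (D : Finset ℕ) (hD : ∀ d ∈ D, d < b) (N : ℕ) :
    digitCount b x D N = hits b x (ID b D) N := by
  classical
  have key : ∀ (n d : ℕ), d < b → (digit b x (n + 1) = (d : ℤ) ↔
      ((d : ℝ) / b ≤ Int.fract (x * (b : ℝ) ^ n) ∧ Int.fract (x * (b : ℝ) ^ n) < ((d : ℝ) + 1) / b)) := by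
    intro n d hd
    have hw : IsWord b 1 (fun _ => (d : ℤ)) := fun j _ =>
      ⟨by positivity, by show (d : ℤ) < b; exact_mod_cast hd⟩
    have h1 := word_iff b (by omega) (fun _ => (d : ℤ)) (x * (b : ℝ) ^ n) 1 hw
    have h2 := cell_iff b (by omega) (x * (b : ℝ) ^ n) (d : ℤ)
    have h3 : val b (fun _ => (d : ℤ)) 1 = d := by
      show (0 : ℤ) * b + d = d
      ring
    rw [h3, pow_one, pow_one] at h1
    push_cast at h2
    rw [h2, ← h1]
    unfold digit
    constructor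
    · intro h j hj
      have : j = 0 := by omega
      subst this
      rw [mul_assoc, ← pow_add]
      exact h
    · intro h
      have := h 0 (by norm_num)
      rw [mul_assoc, ← pow_add] at this
      exact this
  unfold digitCount hits
  refine (card_bij (fun n _ => n + 1) ?_ ?_ ?_).symm
  · intro n hn
    rw [mem_filter, mem_range] at hn
    rw [mem_filter, mem_Icc]
    refine ⟨⟨by omega, by omega⟩, ?_⟩
    obtain ⟨p, hp, h1, h2⟩ := hn.2
    obtain ⟨d, hd, rfl⟩ := mem_image.1 hp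
    exact ⟨d, hd, (key n d (hD d hd)).2 ⟨h1, h2⟩⟩
  · intro a _ c _ h1
    simpa using h1
  · intro i hi
    rw [mem_filter, mem_Icc] at hi
    obtain ⟨⟨h1, h2⟩, d, hd, h3⟩ := hi
    refine ⟨i - 1, ?_, by omega⟩
    rw [mem_filter, mem_range]
    refine ⟨by omega, ((d : ℝ) / b, ((d : ℝ) + 1) / b), mem_image.2 ⟨d, hd, rfl⟩, ?_⟩
    exact (key (i - 1) d (hD d hd)).1 (by rw [show i - 1 + 1 = i by omega]; exact h3)

/-! ### initial intervals -/

section
variable (b : ℕ) (hb : 2 ≤ b) (β : ℝ) (h0 : 0 < β) (h1 : β < 1)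

theorem single_isSet (h0 : 0 < β) (h1 : β < 1) : IsSet {((0 : ℝ), β)} := by
  refine ⟨?_, ?_⟩
  · intro p hp
    rw [mem_singleton] at hp
    subst hp
    exact ⟨le_rfl, h0, h1.le⟩
  · intro p hp q hq hne
    rw [mem_singleton] at hp hq
    exact absurd (hp.trans hq.symm) hne

theorem single_len : len {((0 : ℝ), β)} = β := by
  unfold len
  rw [sum_singleton]
  ring

include hb in
theorem CC_single (s : ℤ) (hs : s ≠ 0) (hz : ∀ z : ℤ, (s : ℝ) * β ≠ z) :
    CC (JJ {((0 : ℝ), β)}) lamI betI b s ≠ 0 := by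
  have hbC : (b : ℂ) ≠ 0 := by exact_mod_cast (by omega : b ≠ 0)
  have hsC : (s : ℂ) ≠ 0 := by exact_mod_cast hs
  have hpi : (π : ℂ) ≠ 0 := by exact_mod_cast Real.pi_ne_zero
  set g : ℕ → ℂ := fun k => (1 / (b : ℂ)) ^ k * (1 - ee (-((s : ℝ) * (b : ℝ) ^ k * β))) with hg
  have e : CC (JJ {((0 : ℝ), β)}) lamI betI b s = (1 / (2 * π * Complex.I * s)) * ∑' k : ℕ, g k := by
    unfold CC
    rw [← tsum_mul_left]
    refine tsum_congr fun k => ?_
    unfold fhat JJ
    rw [sum_product, sum_singleton, Fintype.sum_bool]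
    simp only [lamI, betI, hg]
    push_cast
    have hI := Complex.I_ne_zero
    rw [one_div (b : ℂ), inv_pow]
    simp [ee_zero]
    field_simp
    rw [Complex.I_sq]
    ring
  have hnorm : ∀ k, ‖g k‖ ≤ 2 * (1 / (b : ℝ)) ^ k := by
    intro k
    simp only [hg]
    rw [norm_mul, norm_pow, norm_div, norm_one, Complex.norm_natCast, mul_comm]
    apply mul_le_mul_of_nonneg_right _ (by positivity)
    rw [norm_sub_rev]
    exact chord_le_two _
  have hsum : Summable g := Summable.of_norm_bounded ((geo_b b hb).mul_left 2) hnorm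
  have hre : ∀ k, (g k).re = (1 / (b : ℝ)) ^ k * (1 - Real.cos (2 * π * ((s : ℝ) * (b : ℝ) ^ k * β))) := by
    intro k
    simp only [hg]
    have e1 : (1 / (b : ℂ)) ^ k * (1 - ee (-((s : ℝ) * (b : ℝ) ^ k * β))) =
        (((1 / (b : ℝ)) ^ k : ℝ) : ℂ) * (1 - ee (-((s : ℝ) * (b : ℝ) ^ k * β))) := by
      push_cast
      ring
    rw [e1, Complex.re_ofReal_mul, Complex.sub_re, re_ee, Complex.one_re]
    congr 2
    rw [← Real.cos_neg]
    congr 1
    ring
  have hpos : 0 < (∑' k : ℕ, g k).re := by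
    rw [Complex.re_tsum hsum]
    have hsr : Summable (fun k => (g k).re) := (Complex.hasSum_re hsum.hasSum).summable
    have h2 : (g 0).re ≤ ∑' k, (g k).re := by
      apply hsr.le_tsum 0
      intro k _
      rw [hre]
      have := Real.cos_le_one (2 * π * ((s : ℝ) * (b : ℝ) ^ k * β))
      have h3 : 0 ≤ 1 - Real.cos (2 * π * ((s : ℝ) * (b : ℝ) ^ k * β)) := by linarith
      positivity
    refine lt_of_lt_of_le ?_ h2
    rw [hre, pow_zero, one_mul, pow_zero, mul_one]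
    have h3 : Real.cos (2 * π * ((s : ℝ) * β)) ≠ 1 := by
      intro h4
      rw [Real.cos_eq_one_iff] at h4
      obtain ⟨z, hz2⟩ := h4
      apply hz z
      have hp := Real.pi_pos
      have h5 : (2 * π) * ((s : ℝ) * β) = (2 * π) * z := by linarith
      exact mul_left_cancel₀ (by positivity) h5
    have h4 := Real.cos_le_one (2 * π * ((s : ℝ) * β))
    have h5 := lt_of_le_of_ne h4 h3
    linarith
  rw [e]
  apply mul_ne_zero
  · apply div_ne_zero one_ne_zero
    exact mul_ne_zero (mul_ne_zero (mul_ne_zero two_ne_zero hpi) Complex.I_ne_zero) hsC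
  · intro h
    rw [h, Complex.zero_re] at hpos
    exact lt_irrefl _ hpos

include hb h0 h1 in
theorem ud_of_initial (hz : ∀ s z : ℤ, (s : ℝ) * β = z → (b : ℤ) ∣ s) (L : Set ℕ)
    (hL : L.Infinite) (σ : ℝ) (hσ : σ = 1 ∨ σ = -1) (x : ℝ)
    (h : ∀ l ∈ L, ∀ a < b ^ l - 1, ∀ ε : ℝ, 0 < ε → ∀ᶠ N : ℕ in atTop,
      σ * ((hits b (x + a / ((b ^ l - 1 : ℕ) : ℝ)) {((0 : ℝ), β)} N : ℝ) - N * β) ≤ ε * N) :
    UD fun n => x * (b : ℝ) ^ n := by
  have hI := single_isSet β h0 h1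
  apply ud_of_weyl
  intro g hg
  -- remove the powers of `b`
  obtain ⟨i, s, hs, hgs⟩ : ∃ (i s : ℕ), ¬ b ∣ s ∧ g = s * b ^ i := by
    have hfin : FiniteMultiplicity b g := Nat.finiteMultiplicity_iff.2 ⟨by omega, by omega⟩
    obtain ⟨c, hc, hc2⟩ := hfin.exists_eq_pow_mul_and_not_dvd
    exact ⟨multiplicity b g, c, hc2, by rw [mul_comm]; exact hc⟩
  have hsZ : ¬ (b : ℤ) ∣ (s : ℤ) := fun hd => hs (by exact_mod_cast hd)
  have hs0 : (s : ℤ) ≠ 0 := fun h => hsZ (h ▸ dvd_zero _)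
  have hC := CC_single b hb β (s : ℤ) hs0 fun z hz2 => hsZ (hz _ z hz2)
  have h2 := one_sided (JJ {((0 : ℝ), β)}) lamI betI b hb (bet_bounds _ hI) σ hσ L hL x
    (fun l hl a ha ε hε => by
      have h3 := h l hl a ha ε hε
      filter_upwards [h3] with N hN
      rw [Del_eq _ hI, single_len]
      exact hN) (s : ℤ) hsZ hC
  -- the shift
  rw [Metric.tendsto_atTop] at h2 ⊢
  intro ε hε
  obtain ⟨N0, hN0⟩ := h2 (ε / 2) (by positivity)
  obtain ⟨N1, hN1⟩ := exists_nat_gt (4 * (i : ℝ) / ε)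
  refine ⟨max (N0 + 1) N1, fun N hN => ?_⟩
  have h3 := hN0 N (by omega)
  have hNpos : (0 : ℝ) < N := by exact_mod_cast (by omega : 0 < N)
  have h4 : 4 * (i : ℝ) / ε < N := by
    have : (N1 : ℝ) ≤ N := by exact_mod_cast (le_max_right _ _).trans hN
    linarith
  rw [div_lt_iff₀ hε] at h4
  rw [Real.dist_eq, sub_zero, abs_of_nonneg (by positivity), div_lt_iff₀ hNpos] at h3 ⊢
  have h5 := shift_sum (fun n => ee (((s : ℤ) : ℝ) * (b : ℝ) ^ n * x)) (fun n => by rw [norm_ee]) N i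
  have e : ∑ n ∈ range N, ee ((g : ℝ) * (x * (b : ℝ) ^ n)) =
      ∑ n ∈ range N, ee (((s : ℤ) : ℝ) * (b : ℝ) ^ (n + i) * x) := by
    refine sum_congr rfl fun n _ => ?_
    congr 1
    rw [hgs]
    push_cast
    rw [pow_add]
    ring
  rw [e]
  have h6 := norm_sub_norm_le (∑ n ∈ range N, ee (((s : ℤ) : ℝ) * (b : ℝ) ^ (n + i) * x))
    (∑ n ∈ range N, ee (((s : ℤ) : ℝ) * (b : ℝ) ^ n * x))
  linarith

end

end Pool.Agent.N304.NT
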