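import Pool.Agent.N304.NT.Fin2

/-! # Sets whose constants do not vanish -/

set_option autoImplicit false

namespace Pool.Agent.N304.NT

open Finset Filter Topology
open scoped Real
open Pool.Agent.H534R3.UDist (ee norm_ee UD Weyl ud_of_weyl)

theorem ud_of_CC (b : ℕ) (hb : 2 ≤ b) (I : Finset (ℝ × ℝ)) (hI : IsSet I)
    (hC : ∀ s : ℤ, ¬ (b : ℤ) ∣ s → CC (JJ I) lamI betI b s ≠ 0) (L : Set ℕ)
    (hL : L.Infinite) (σ : ℝ) (hσ : σ = 1 ∨ σ = -1) (x : ℝ)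
    (h : ∀ l ∈ L, ∀ a < b ^ l - 1, ∀ ε : ℝ, 0 < ε → ∀ᶠ N : ℕ in atTop,
      σ * ((hits b (x + a / ((b ^ l - 1 : ℕ) : ℝ)) I N : ℝ) - N * len I) ≤ ε * N) :
    UD fun n => x * (b : ℝ) ^ n := by
  apply ud_of_weyl
  intro g hg
  -- remove the powers of `b`
  obtain ⟨i, s, hs, hgs⟩ : ∃ (i s : ℕ), ¬ b ∣ s ∧ g = s * b ^ i := by
    have hfin : FiniteMultiplicity b g := Nat.finiteMultiplicity_iff.2 ⟨by omega, by omega⟩
    obtain ⟨c, hc, hc2⟩ := hfin.exists_eq_pow_mul_and_not_dvd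
    exact ⟨multiplicity b g, c, hc2, by rw [mul_comm]; exact hc⟩
  have hsZ : ¬ (b : ℤ) ∣ (s : ℤ) := fun hd => hs (by exact_mod_cast hd)
  have h2 := one_sided (JJ I) lamI betI b hb (bet_bounds _ hI) σ hσ L hL x
    (fun l hl a ha ε hε => by
      have h3 := h l hl a ha ε hε
      filter_upwards [h3] with N hN
      rw [Del_eq _ hI]
      exact hN) (s : ℤ) hsZ (hC _ hsZ)
  -- the shift
  rw [Metric.tendsto_atTop] at h2 ⊢
  intro ε hε
  obtain ⟨N0, hN0⟩ := h2 (ε / 2) (by positivity)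
  obtain ⟨N1, hN1⟩ := exists_nat_gt (4 * (i : ℝ) / ε)
  refine ⟨max (N0 + 1) N1, fun N hN => ?_⟩
  have h3 := hN0 N (by omega)
  have hNpos : (0 : ℝ) < N := by exact_mod_cast (by omega : 0 < N)
  have h4 : 4 * (i : ℝ) / ε < N := by
    have : (N1 : ℝ) ≤ N := by exact_mod_cast (le_max_right _ _).trans hN
    linarith
  rw [div_lt_iff₀ hε] at h4
  rw [Real.dist_eq, sub_zero, abs_of_nonneg (by positivity), div_lt_iff₀ hNpos] at h3 ⊢
  have h5 := shift_sum (fun n => ee (((s : ℤ) : ℝ) * (b : ℝ) ^ n * x)) (fun n => by rw [norm_ee]) N i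
  have e : ∑ n ∈ range N, ee ((g : ℝ) * (x * (b : ℝ) ^ n)) =
      ∑ n ∈ range N, ee (((s : ℤ) : ℝ) * (b : ℝ) ^ (n + i) * x) := by
    refine sum_congr rfl fun n _ => ?_
    congr 1
    rw [hgs]
    push_cast
    rw [pow_add]
    ring
  rw [e]
  have h6 := norm_sub_norm_le (∑ n ∈ range N, ee (((s : ℤ) : ℝ) * (b : ℝ) ^ (n + i) * x))
    (∑ n ∈ range N, ee (((s : ℤ) : ℝ) * (b : ℝ) ^ n * x))
  linarith

theorem ee_eq_one {t : ℝ} (h : ee t = 1) : ∃ z : ℤ, t = z := by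
  have h1 : (ee t).re = 1 := by rw [h, Complex.one_re]
  rw [re_ee, Real.cos_eq_one_iff] at h1
  obtain ⟨z, hz⟩ := h1
  refine ⟨z, ?_⟩
  have hp := Real.pi_pos
  have h5 : (2 * π) * t = (2 * π) * z := by linarith
  exact mul_left_cancel₀ (by positivity) h5

/-- the Fourier transform of the set of digits `D` -/
noncomputable def DD (b : ℕ) (D : Finset ℕ) (t : ℤ) : ℂ := ∑ d ∈ D, ee (-((t : ℝ) * ((d : ℝ) / b)))

theorem fhat_ID (b : ℕ) (hb : 2 ≤ b) (D : Finset ℕ) (t : ℤ) :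
    fhat (JJ (ID b D)) lamI betI t =
      (1 - ee (-((t : ℝ) / b))) / (2 * π * Complex.I * t) * DD b D t := by
  unfold fhat JJ ID DD
  rw [sum_product, sum_image fun d _ d' _ h => ID_inj b hb h, mul_sum]
  refine sum_congr rfl fun d _ => ?_
  rw [Fintype.sum_bool]
  simp only [lamI, betI]
  have e : ee (-((t : ℝ) * (((d : ℝ) + 1) / b))) = ee (-((t : ℝ) / b)) * ee (-((t : ℝ) * ((d : ℝ) / b))) := by
    rw [← ee_add]
    congr 1
    ring
  simp only [if_true, Bool.false_eq_true, if_false]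
  rw [e]
  push_cast
  ring

theorem CC_ID (b : ℕ) (hb : 2 ≤ b) (D : Finset ℕ) (s : ℤ) :
    CC (JJ (ID b D)) lamI betI b s =
      (1 - ee (-((s : ℝ) / b))) / (2 * π * Complex.I * s) * DD b D s := by
  have hb0 : (b : ℝ) ≠ 0 := by positivity
  unfold CC
  rw [tsum_eq_single 0]
  · rw [pow_zero, mul_one, fhat_ID b hb]
  · intro k hk
    rw [fhat_ID b hb]
    obtain ⟨k, rfl⟩ : ∃ j, k = j + 1 := ⟨k - 1, by omega⟩
    have e : (-(((s * (b : ℤ) ^ (k + 1) : ℤ) : ℝ) / b)) = ((-(s * (b : ℤ) ^ k) : ℤ) : ℝ) := by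
      push_cast
      rw [pow_succ]
      field_simp
    rw [e, ee_int, sub_self, zero_div, zero_mul]

theorem CC_ID_ne (b : ℕ) (hb : 2 ≤ b) (D : Finset ℕ)
    (hD : ∀ s : ℕ, 1 ≤ s → s < b → ∑ d ∈ D, ee ((s : ℝ) * ((d : ℝ) / b)) ≠ 0) (s : ℤ)
    (hs : ¬ (b : ℤ) ∣ s) : CC (JJ (ID b D)) lamI betI b s ≠ 0 := by
  have hb0 : (b : ℝ) ≠ 0 := by positivity
  have hbZ : (0 : ℤ) < b := by exact_mod_cast (by omega : 0 < b)
  have hpi : (π : ℂ) ≠ 0 := by exact_mod_cast Real.pi_ne_zero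
  have hs0 : s ≠ 0 := fun h => hs (h ▸ dvd_zero _)
  have hsC : (s : ℂ) ≠ 0 := by exact_mod_cast hs0
  rw [CC_ID b hb]
  apply mul_ne_zero
  · apply div_ne_zero
    · intro h
      obtain ⟨z, hz⟩ := ee_eq_one (sub_eq_zero.1 h).symm
      apply hs
      refine ⟨-z, ?_⟩
      have h2 : (s : ℝ) = b * (-z : ℤ) := by
        push_cast
        rw [← hz]
        field_simp
      exact_mod_cast h2
    · exact mul_ne_zero (mul_ne_zero (mul_ne_zero two_ne_zero hpi) Complex.I_ne_zero) hsC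
  · have h1 : 0 ≤ (-s) % (b : ℤ) := Int.emod_nonneg _ hbZ.ne'
    have h2 : (-s) % (b : ℤ) < b := Int.emod_lt_of_pos _ hbZ
    have h3 : (-s) % (b : ℤ) ≠ 0 := fun h => hs ((dvd_neg).1 (Int.dvd_of_emod_eq_zero h))
    obtain ⟨r, hr⟩ := Int.eq_ofNat_of_zero_le h1
    have h4 := hD r (by omega) (by omega)
    have e : DD b D s = ∑ d ∈ D, ee ((r : ℝ) * ((d : ℝ) / b)) := by
      unfold DD
      refine sum_congr rfl fun d _ => ?_
      apply ee_congr ((-s) / (b : ℤ) * d)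
      have h5 := Int.emod_add_mul_ediv (-s) (b : ℤ)
      rw [hr] at h5
      have h6 : (-(s : ℝ)) = (r : ℝ) + b * (((-s) / (b : ℤ) : ℤ) : ℝ) := by exact_mod_cast h5.symm
      rw [← neg_mul, h6]
      push_cast
      field_simp
    rw [e]
    exact h4

end Pool.Agent.N304.NT
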