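import Pool.Agent.N304.NT.G

/-! # The final forms -/

set_option autoImplicit false

namespace Pool.Agent.N304.NT

open Finset Filter Topology
open scoped Real
open Pool.Agent.H534R3.UDist (ee norm_ee UD Weyl ud_of_weyl)

/-- the upper frequency is at most `δ` -/
def UpperLe (c : ℕ → ℕ) (δ : ℝ) : Prop := ∀ ε : ℝ, 0 < ε → ∀ᶠ N : ℕ in atTop, (c N : ℝ) ≤ (δ + ε) * N

/-- the lower frequency is at least `δ` -/
def LowerGe (c : ℕ → ℕ) (δ : ℝ) : Prop := ∀ ε : ℝ, 0 < ε → ∀ᶠ N : ℕ in atTop, (δ - ε) * N ≤ (c N : ℝ)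

theorem upper_of_tendsto {c : ℕ → ℕ} {δ : ℝ}
    (h : Tendsto (fun N : ℕ => (c N : ℝ) / (N : ℝ)) atTop (𝓝 δ)) : UpperLe c δ := by
  intro ε hε
  filter_upwards [h.eventually (gt_mem_nhds (show δ < δ + ε by linarith)), eventually_ge_atTop 1]
    with N hN hN1
  have h1 : (0 : ℝ) < N := by exact_mod_cast hN1
  rw [div_lt_iff₀ h1] at hN
  exact hN.le

theorem lower_of_tendsto {c : ℕ → ℕ} {δ : ℝ}
    (h : Tendsto (fun N : ℕ => (c N : ℝ) / (N : ℝ)) atTop (𝓝 δ)) : LowerGe c δ := by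
  intro ε hε
  filter_upwards [h.eventually (lt_mem_nhds (show δ - ε < δ by linarith)), eventually_ge_atTop 1]
    with N hN hN1
  have h1 : (0 : ℝ) < N := by exact_mod_cast hN1
  rw [lt_div_iff₀ h1] at hN
  exact hN.le

theorem tendsto_of_normal (b : ℕ) (hb : 2 ≤ b) (I : Finset (ℝ × ℝ)) (hI : IsSet I) (x : ℝ)
    (hx : Normal b x) (m r : ℚ) (hm : m ≠ 0) :
    Tendsto (fun N : ℕ => (hits b (m * x + r) I N : ℝ) / (N : ℝ)) atTop (𝓝 (len I)) :=
  hits_tendsto I hI b _ (ud_affine b hb x ((normal_iff_ud b hb x).1 hx) m r hm)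

theorem cast_H (b : ℕ) (hb : 2 ≤ b) (l : ℕ) : ((b ^ l - 1 : ℕ) : ℝ) = (b : ℝ) ^ l - 1 := by
  rw [Nat.cast_sub (Nat.one_le_pow _ _ (by omega))]
  push_cast
  ring

theorem rat_shift (b : ℕ) (a l : ℕ) : (a : ℝ) / ((b : ℝ) ^ l - 1) = (((a : ℚ) / ((b : ℚ) ^ l - 1) : ℚ) : ℝ) := by
  push_cast
  ring

theorem normal_of_upper (b : ℕ) (hb : 2 ≤ b) (I : Finset (ℝ × ℝ)) (hI : IsSet I) (h0 : 0 < len I)
    (h1 : len I < 1) (q : ℕ) (hq : 1 ≤ q) (L : Set ℕ) (hL : L.Infinite) (x : ℝ)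
    (h : ∀ m : ℕ, 1 ≤ m → q ∣ m → ∀ l ∈ L, ∀ a < b ^ l - 1,
      UpperLe (hits b (m * x + a / ((b : ℝ) ^ l - 1)) I) (len I)) : Normal b x := by
  rw [normal_iff_ud b hb]
  refine ud_of_one_sided I hI h0 h1 b hb q hq L hL 1 (Or.inl rfl) x fun m hm hqm l hl a ha ε hε => ?_
  filter_upwards [h m hm hqm l hl a ha ε hε] with N hN
  rw [cast_H b hb]
  linarith

theorem normal_of_lower (b : ℕ) (hb : 2 ≤ b) (I : Finset (ℝ × ℝ)) (hI : IsSet I) (h0 : 0 < len I)
    (h1 : len I < 1) (q : ℕ) (hq : 1 ≤ q) (L : Set ℕ) (hL : L.Infinite) (x : ℝ)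
    (h : ∀ m : ℕ, 1 ≤ m → q ∣ m → ∀ l ∈ L, ∀ a < b ^ l - 1,
      LowerGe (hits b (m * x + a / ((b : ℝ) ^ l - 1)) I) (len I)) : Normal b x := by
  rw [normal_iff_ud b hb]
  refine ud_of_one_sided I hI h0 h1 b hb q hq L hL (-1) (Or.inr rfl) x
    fun m hm hqm l hl a ha ε hε => ?_
  filter_upwards [h m hm hqm l hl a ha ε hε] with N hN
  rw [cast_H b hb]
  linarith

open Classical in
theorem many_of_not_normal (b : ℕ) (hb : 2 ≤ b) (I : Finset (ℝ × ℝ)) (hI : IsSet I)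
    (h0 : 0 < len I) (h1 : len I < 1) (x : ℝ) (hx : ¬ Normal b x) : ∃ m : ℕ, 1 ≤ m ∧
    ∃ c : ℝ, 0 < c ∧ ∀ᶠ l : ℕ in atTop,
      c / l * (b : ℝ) ^ l ≤ (((range (b ^ l - 1)).filter fun a : ℕ => ∃ᶠ N : ℕ in atTop,
        (len I + c / l) * N ≤ (hits b (m * x + a / ((b : ℝ) ^ l - 1)) I N : ℝ)).card : ℝ) ∧
      c / l * (b : ℝ) ^ l ≤ (((range (b ^ l - 1)).filter fun a : ℕ => ∃ᶠ N : ℕ in atTop,
        (hits b (m * x + a / ((b : ℝ) ^ l - 1)) I N : ℝ) ≤ (len I - c / l) * N).card : ℝ) := by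
  rw [normal_iff_ud b hb] at hx
  obtain ⟨m, hm, c, hc, h⟩ := many_of_not_ud I hI h0 h1 b hb x hx
  refine ⟨m, hm, c / 2, by positivity, ?_⟩
  have hpow : ∀ l : ℕ, 1 ≤ l → (b : ℝ) ^ l ≤ 2 * ((b ^ l - 1 : ℕ) : ℝ) := by
    intro l hl
    rw [cast_H b hb]
    have h2 : (2 : ℝ) ≤ (b : ℝ) ^ l := by
      have h3 : 2 ^ 1 ≤ b ^ l := (Nat.pow_le_pow_left hb 1).trans (Nat.pow_le_pow_right (by omega) hl)
      exact_mod_cast h3
    linarith
  filter_upwards [h 1 (Or.inl rfl), h (-1) (Or.inr rfl), eventually_ge_atTop 1] with l H1 H2 hl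
  have hlR : (0 : ℝ) < l := by exact_mod_cast hl
  have hcl : c / 2 / l ≤ c / l := by
    apply div_le_div_of_nonneg_right _ hlR.le
    linarith
  have hmain : c / 2 / l * (b : ℝ) ^ l ≤ c / l * ((b ^ l - 1 : ℕ) : ℝ) := by
    have h3 := mul_le_mul_of_nonneg_left (hpow l hl) (show 0 ≤ c / 2 / l by positivity)
    refine h3.trans (le_of_eq ?_)
    ring
  constructor
  · refine hmain.trans (H1.trans ?_)
    have hsub : ((range (b ^ l - 1)).filter fun a : ℕ => ∃ᶠ N : ℕ in atTop, c / l * N ≤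
          1 * ((hits b (m * x + a / ((b ^ l - 1 : ℕ) : ℝ)) I N : ℝ) - N * len I)) ⊆
        ((range (b ^ l - 1)).filter fun a : ℕ => ∃ᶠ N : ℕ in atTop,
        (len I + c / 2 / l) * N ≤ (hits b (m * x + a / ((b : ℝ) ^ l - 1)) I N : ℝ)) := by
      intro a ha
      rw [mem_filter] at ha ⊢
      refine ⟨ha.1, ha.2.mono fun N hN => ?_⟩
      rw [cast_H b hb] at hN
      have h3 := mul_le_mul_of_nonneg_right hcl (Nat.cast_nonneg (α := ℝ) N)
      linarith
    exact_mod_cast card_le_card hsub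
  · refine hmain.trans (H2.trans ?_)
    have hsub : ((range (b ^ l - 1)).filter fun a : ℕ => ∃ᶠ N : ℕ in atTop, c / l * N ≤
          -1 * ((hits b (m * x + a / ((b ^ l - 1 : ℕ) : ℝ)) I N : ℝ) - N * len I)) ⊆
        ((range (b ^ l - 1)).filter fun a : ℕ => ∃ᶠ N : ℕ in atTop,
        (hits b (m * x + a / ((b : ℝ) ^ l - 1)) I N : ℝ) ≤ (len I - c / 2 / l) * N) := by
      intro a ha
      rw [mem_filter] at ha ⊢
      refine ⟨ha.1, ha.2.mono fun N hN => ?_⟩
      rw [cast_H b hb] at hN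
      have h3 := mul_le_mul_of_nonneg_right hcl (Nat.cast_nonneg (α := ℝ) N)
      linarith
    exact_mod_cast card_le_card hsub

/-! ### sets of digits -/

section
variable (b : ℕ) (hb : 2 ≤ b) (D : Finset ℕ) (hD : ∀ d ∈ D, d < b) (hne : D.Nonempty)
  (hc : D.card < b)

include hb hne in
theorem ID_pos : 0 < len (ID b D) := by
  rw [ID_len b hb]
  have h1 : (0 : ℝ) < D.card := by exact_mod_cast hne.card_pos
  positivity

include hb hc in
theorem ID_lt : len (ID b D) < 1 := by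
  rw [ID_len b hb, div_lt_one (by positivity)]
  exact_mod_cast hc

include hb hD in
theorem digits_tendsto (x : ℝ) (hx : Normal b x) (m r : ℚ) (hm : m ≠ 0) :
    Tendsto (fun N : ℕ => (digitCount b (m * x + r) D N : ℝ) / (N : ℝ)) atTop
      (𝓝 ((D.card : ℝ) / b)) := by
  have h := tendsto_of_normal b hb (ID b D) (ID_isSet b hb D hD) x hx m r hm
  rw [ID_len b hb] at h
  refine h.congr fun N => ?_
  rw [digitCount_eq b hb _ D hD]

include hb hD hne hc in
theorem normal_of_digits_upper (q : ℕ) (hq : 1 ≤ q) (L : Set ℕ) (hL : L.Infinite) (x : ℝ)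
    (h : ∀ m : ℕ, 1 ≤ m → q ∣ m → ∀ l ∈ L, ∀ a < b ^ l - 1,
      UpperLe (digitCount b (m * x + a / ((b : ℝ) ^ l - 1)) D) (D.card / b)) : Normal b x := by
  refine normal_of_upper b hb (ID b D) (ID_isSet b hb D hD) (ID_pos b hb D hne) (ID_lt b hb D hc) q hq
    L hL x fun m hm hqm l hl a ha ε hε => ?_
  filter_upwards [h m hm hqm l hl a ha ε hε] with N hN
  rw [digitCount_eq b hb _ D hD] at hN
  rw [ID_len b hb]
  exact hN

include hb hD hne hc in
theorem normal_of_digits_lower (q : ℕ) (hq : 1 ≤ q) (L : Set ℕ) (hL : L.Infinite) (x : ℝ)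
    (h : ∀ m : ℕ, 1 ≤ m → q ∣ m → ∀ l ∈ L, ∀ a < b ^ l - 1,
      LowerGe (digitCount b (m * x + a / ((b : ℝ) ^ l - 1)) D) (D.card / b)) : Normal b x := by
  refine normal_of_lower b hb (ID b D) (ID_isSet b hb D hD) (ID_pos b hb D hne) (ID_lt b hb D hc) q hq
    L hL x fun m hm hqm l hl a ha ε hε => ?_
  filter_upwards [h m hm hqm l hl a ha ε hε] with N hN
  rw [digitCount_eq b hb _ D hD] at hN
  rw [ID_len b hb]
  exact hN

theorem exp_eq_ee (s d : ℕ) :
    Complex.exp (2 * π * Complex.I * (s * d / b)) = ee ((s : ℝ) * ((d : ℝ) / b)) := by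
  rw [ee]
  congr 1
  push_cast
  ring

include hb hD in
theorem normal_of_translates (hF : ∀ s : ℕ, 1 ≤ s → s < b →
      ∑ d ∈ D, Complex.exp (2 * π * Complex.I * (s * d / b)) ≠ 0) (L : Set ℕ) (hL : L.Infinite)
    (x : ℝ) (h : (∀ l ∈ L, ∀ a < b ^ l - 1,
        UpperLe (digitCount b (x + a / ((b : ℝ) ^ l - 1)) D) (D.card / b)) ∨
      (∀ l ∈ L, ∀ a < b ^ l - 1,
        LowerGe (digitCount b (x + a / ((b : ℝ) ^ l - 1)) D) (D.card / b))) : Normal b x := by
  have hC := CC_ID_ne b hb D fun s h1 h2 => by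
    have := hF s h1 h2
    simp only [exp_eq_ee] at this
    exact this
  rw [normal_iff_ud b hb]
  rcases h with h | h
  · refine ud_of_CC b hb _ (ID_isSet b hb D hD) hC L hL 1 (Or.inl rfl) x fun l hl a ha ε hε => ?_
    filter_upwards [h l hl a ha ε hε] with N hN
    rw [digitCount_eq b hb _ D hD] at hN
    rw [ID_len b hb, cast_H b hb]
    linarith
  · refine ud_of_CC b hb _ (ID_isSet b hb D hD) hC L hL (-1) (Or.inr rfl) x fun l hl a ha ε hε => ?_
    filter_upwards [h l hl a ha ε hε] with N hN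
    rw [digitCount_eq b hb _ D hD] at hN
    rw [ID_len b hb, cast_H b hb]
    linarith

end

/-- the primes among the decimal digits -/
theorem prime_digits (s : ℕ) (h1 : 1 ≤ s) (h2 : s < 10) :
    ∑ d ∈ ({2, 3, 5, 7} : Finset ℕ), Complex.exp (2 * π * Complex.I * (s * d / (10 : ℕ))) ≠ 0 := by
  simp only [exp_eq_ee]
  set z : ℂ := ee ((s : ℝ) / 10) with hz
  have hpow : ∀ d : ℕ, ee ((s : ℝ) * ((d : ℝ) / (10 : ℕ))) = z ^ d := by
    intro d
    rw [hz, ee_pow]
    congr 1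
    push_cast
    ring
  have hz1 : z ≠ 1 := by
    intro h
    obtain ⟨k, hk⟩ := ee_eq_one h
    have h3 : (s : ℝ) = 10 * k := by linarith
    have h4 : (s : ℤ) = 10 * k := by exact_mod_cast h3
    omega
  have hz10 : z ^ 10 = 1 := by
    rw [hz, ee_pow]
    have : ((10 : ℕ) : ℝ) * ((s : ℝ) / 10) = ((s : ℤ) : ℝ) := by
      push_cast
      ring
    rw [this, ee_int]
  have hz0 : z ≠ 0 := by
    intro h
    rw [h] at hz10
    norm_num at hz10
  rw [sum_insert (by decide), sum_insert (by decide), sum_insert (by decide), sum_singleton, hpow, hpow,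
    hpow, hpow]
  intro h
  have h3 : 1 + z + z ^ 3 + z ^ 5 = 0 := by
    have : z ^ 2 * (1 + z + z ^ 3 + z ^ 5) = 0 := by linear_combination h
    rcases mul_eq_zero.1 this with h4 | h4
    · exact absurd (pow_eq_zero_iff (by norm_num) |>.1 h4) hz0
    · exact h4
  have h5 : (z ^ 5 - 1) * (z ^ 5 + 1) = 0 := by linear_combination hz10
  rcases mul_eq_zero.1 h5 with h6 | h6
  · -- `z ^ 5 = 1`
    have h7 : z ^ 5 = 1 := by linear_combination h6
    have h8 : (z + 1) * (z ^ 2 - z + 2) = 0 := by linear_combination h3 - h6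
    rcases mul_eq_zero.1 h8 with h9 | h9
    · have h10 : z = -1 := by linear_combination h9
      rw [h10] at h7
      norm_num at h7
    · have h10 : z ^ 2 = z - 2 := by linear_combination h9
      have h11 : z ^ 5 = -z + 6 := by
        have e3 : z ^ 3 = -z - 2 := by
          calc z ^ 3 = z * z ^ 2 := by ring
            _ = z * (z - 2) := by rw [h10]
            _ = z ^ 2 - 2 * z := by ring
            _ = -z - 2 := by rw [h10]; ring
        calc z ^ 5 = z ^ 2 * z ^ 3 := by ring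
          _ = (z - 2) * (-z - 2) := by rw [h10, e3]
          _ = -z ^ 2 + 4 := by ring
          _ = -z + 6 := by rw [h10]; ring
      rw [h7] at h11
      have h12 : z = 5 := by linear_combination h11
      rw [h12] at h10
      norm_num at h10
  · have h7 : z ^ 5 = -1 := by linear_combination h6
    have h8 : z * (1 + z ^ 2) = 0 := by linear_combination h3 - h6
    rcases mul_eq_zero.1 h8 with h9 | h9
    · exact hz0 h9
    · have h10 : z ^ 2 = -1 := by linear_combination h9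
      have h11 : z ^ 5 = z := by
        calc z ^ 5 = z ^ 2 * z ^ 2 * z := by ring
          _ = z := by rw [h10]; ring
      rw [h11] at h7
      rw [h7] at h10
      norm_num at h10

end Pool.Agent.N304.NT
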