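import Pool.Agent.N304.NT.D

/-! # The main coefficient does not vanish identically -/

set_option autoImplicit false

namespace Pool.Agent.N304.NT

open Finset Filter Topology
open scoped Real
open Pool.Agent.H534R3.UDist (ee norm_ee)

/-- the periodic second Bernoulli polynomial -/
noncomputable def Q2 (t : ℝ) : ℝ := Int.fract t ^ 2 - Int.fract t + 1 / 6

/-- (as in `Pool.Agent.W565.MOFS.cos_sum`) -/
theorem cos_sum (x : ℝ) : HasSum (fun n : ℕ => 1 / (n : ℝ) ^ 2 * Real.cos (2 * π * n * x))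
    (π ^ 2 * Q2 x) := by
  have h := hasSum_one_div_nat_pow_mul_cos (k := 1) one_ne_zero (x := Int.fract x)
    ⟨Int.fract_nonneg x, (Int.fract_lt_one x).le⟩
  have h1 : (-1 : ℝ) ^ (1 + 1) * (2 * π) ^ (2 * 1) / 2 / (Nat.factorial (2 * 1) : ℝ) *
        (Polynomial.map (algebraMap ℚ ℝ) (Polynomial.bernoulli (2 * 1))).eval (Int.fract x) =
      π ^ 2 * Q2 x := by
    have h2 : (Polynomial.map (algebraMap ℚ ℝ) (Polynomial.bernoulli (2 * 1))).eval (Int.fract x)
        = Q2 x := by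
      simp [Polynomial.bernoulli, Finset.sum_range_succ, Q2, bernoulli_one, bernoulli_two,
        Polynomial.eval_monomial]
      ring
    have h3 : (Nat.factorial (2 * 1) : ℝ) = 2 := by norm_num [Nat.factorial]
    rw [h2, h3]
    ring
  rw [h1] at h
  convert h using 2 with n
  rw [mul_one]
  congr 1
  have h3 : 2 * π * (n : ℝ) * x =
      2 * π * (n : ℝ) * Int.fract x + ((n * ⌊x⌋ : ℤ) : ℝ) * (2 * π) := by
    have : x = Int.fract x + (⌊x⌋ : ℤ) := (Int.fract_add_floor x).symm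
    conv_lhs => rw [this]
    push_cast; ring
  rw [h3, Real.cos_add_int_mul_two_pi]

theorem Q2_eq (t : ℝ) : Q2 t = (1 / 2 - |t - round t|) ^ 2 - 1 / 12 := by
  rw [abs_sub_round_eq_min]
  unfold Q2
  rcases min_cases (Int.fract t) (1 - Int.fract t) with ⟨h, _⟩ | ⟨h, _⟩
  · rw [h]; ring
  · rw [h]; ring

theorem dist_lip (u v : ℝ) : |u - round u| ≤ |v - round v| + |u - v| := by
  have h1 := round_le u (round v)
  have h2 : |u - round v| ≤ |u - v| + |v - round v| := by
    have := abs_add_le (u - v) (v - round v)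
    rw [sub_add_sub_cancel] at this
    exact this
  linarith

theorem Q2_lip (u v : ℝ) : |Q2 u - Q2 v| ≤ |u - v| := by
  rw [Q2_eq, Q2_eq]
  have h1 := dist_lip u v
  have h2 := dist_lip v u
  rw [abs_sub_comm v u] at h2
  have h3 : |u - round u| ≤ 1 / 2 := abs_sub_round u
  have h4 : |v - round v| ≤ 1 / 2 := abs_sub_round v
  have h5 := abs_nonneg (u - round u)
  have h6 := abs_nonneg (v - round v)
  set p := |u - round u|
  set q := |v - round v|
  have h7 := abs_nonneg (u - v)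
  have e : (1 / 2 - p) ^ 2 - 1 / 12 - ((1 / 2 - q) ^ 2 - 1 / 12) = (q - p) * (1 - p - q) := by ring
  rw [e, abs_mul]
  have h8 : |q - p| ≤ |u - v| := by
    rw [abs_le]
    constructor <;> linarith
  have h9 : |1 - p - q| ≤ 1 := by
    rw [abs_le]
    constructor <;> linarith
  calc |q - p| * |1 - p - q| ≤ |u - v| * 1 := mul_le_mul h8 h9 (abs_nonneg _) h7
    _ = _ := mul_one _

theorem re_ee (t : ℝ) : (ee t).re = Real.cos (2 * π * t) := by
  rw [ee]
  have : (2 * π * Complex.I * t : ℂ) = ((2 * π * t : ℝ) : ℂ) * Complex.I := by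
    push_cast
    ring
  rw [this, Complex.exp_ofReal_mul_I_re]

section
variable {ι : Type} (J : Finset ι) (lam β : ι → ℝ) (b : ℕ)

/-- the coefficients without the denominators -/
noncomputable def aa (t : ℝ) : ℂ := ∑ j ∈ J, (lam j : ℂ) * (ee (-(t * β j)) - 1)

theorem norm_aa (t : ℝ) : ‖aa J lam β t‖ ≤ 2 * Lam J lam := by
  unfold aa Lam
  rw [mul_sum]
  refine (norm_sum_le _ _).trans (sum_le_sum fun j _ => ?_)
  rw [norm_mul, Complex.norm_real, Real.norm_eq_abs]
  have := chord_le_two (-(t * β j))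
  have h := abs_nonneg (lam j)
  nlinarith

theorem re_aa (y t : ℝ) : (ee (t * y) * aa J lam β t).re =
    ∑ j ∈ J, lam j * (Real.cos (2 * π * t * (y - β j)) - Real.cos (2 * π * t * y)) := by
  unfold aa
  rw [mul_sum, Complex.re_sum]
  refine sum_congr rfl fun j _ => ?_
  have e : ee (t * y) * ((lam j : ℂ) * (ee (-(t * β j)) - 1)) =
      (lam j : ℂ) * (ee (t * (y - β j)) - ee (t * y)) := by
    have : ee (t * (y - β j)) = ee (t * y) * ee (-(t * β j)) := by
      rw [← ee_add]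
      congr 1
      ring
    rw [this]
    ring
  rw [e, Complex.re_ofReal_mul, Complex.sub_re, re_ee, re_ee]
  congr 3 <;> ring_nf

/-- the transformed coefficients -/
noncomputable def AA (n : ℕ) : ℂ := ∑' k : ℕ, ((1 / (b : ℂ)) ^ k) * aa J lam β ((n : ℝ) * (b : ℝ) ^ k)

variable (hb : 2 ≤ b)

include hb in
theorem geo_b : Summable (fun k : ℕ => (1 / (b : ℝ)) ^ k) := by
  have hbR : (2 : ℝ) ≤ b := by exact_mod_cast hb
  apply summable_geometric_of_lt_one (by positivity)
  rw [div_lt_one (by linarith)]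
  linarith

theorem norm_term (n k : ℕ) :
    ‖((1 / (b : ℂ)) ^ k) * aa J lam β ((n : ℝ) * (b : ℝ) ^ k)‖ ≤
      2 * Lam J lam * (1 / (b : ℝ)) ^ k := by
  rw [norm_mul, norm_pow, norm_div, norm_one, Complex.norm_natCast, mul_comm]
  exact mul_le_mul_of_nonneg_right (norm_aa J lam β _) (by positivity)

include hb in
theorem summable_AA (n : ℕ) :
    Summable (fun k : ℕ => ((1 / (b : ℂ)) ^ k) * aa J lam β ((n : ℝ) * (b : ℝ) ^ k)) :=
  Summable.of_norm_bounded ((geo_b b hb).mul_left (2 * Lam J lam)) fun k => norm_term J lam β b n k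

include hb in
theorem norm_AA (n : ℕ) : ‖AA J lam β b n‖ ≤ 4 * Lam J lam := by
  have hbR : (2 : ℝ) ≤ b := by exact_mod_cast hb
  have h1 := tsum_of_norm_bounded ((geo_b b hb).mul_left (2 * Lam J lam)).hasSum
    (fun k => norm_term J lam β b n k)
  refine h1.trans ?_
  rw [tsum_mul_left, tsum_geometric_of_lt_one (by positivity) (by
    rw [div_lt_one (by linarith)]
    linarith)]
  have h2 : (1 - 1 / (b : ℝ))⁻¹ ≤ 2 := by
    rw [inv_le_comm₀ _ (by norm_num)]
    · have : 1 / (b : ℝ) ≤ 1 / 2 := one_div_le_one_div_of_le (by norm_num) hbR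
      linarith
    · have : 1 / (b : ℝ) ≤ 1 / 2 := one_div_le_one_div_of_le (by norm_num) hbR
      linarith
  have h3 := Lam_nonneg J lam
  nlinarith

include hb in
theorem AA_rec (n : ℕ) : AA J lam β b n = aa J lam β n + (1 / (b : ℂ)) * AA J lam β b (b * n) := by
  unfold AA
  rw [(summable_AA J lam β b hb n).tsum_eq_zero_add, ← tsum_mul_left]
  congr 1
  · simp
  · refine tsum_congr fun k => ?_
    rw [pow_succ]
    have : (n : ℝ) * ((b : ℝ) ^ (k + 1)) = ((b * n : ℕ) : ℝ) * (b : ℝ) ^ k := by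
      push_cast
      ring
    rw [this]
    ring

/-- the integrated function -/
noncomputable def Th (y : ℝ) : ℝ :=
  ∑' n : ℕ, (1 / (2 * π ^ 2)) * (1 / (n : ℝ) ^ 2) * (ee ((n : ℝ) * y) * AA J lam β b n).re

/-- the integrated step function -/
noncomputable def Ph (y : ℝ) : ℝ := ∑ j ∈ J, lam j * ((Q2 (y - β j) - Q2 y) / 2)

theorem Ph_sum (y : ℝ) : HasSum (fun n : ℕ => (1 / (2 * π ^ 2)) * (1 / (n : ℝ) ^ 2) *
    (ee ((n : ℝ) * y) * aa J lam β n).re) (Ph J lam β y) := by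
  have h1 : ∀ j ∈ J, HasSum (fun n : ℕ => (lam j / (2 * π ^ 2)) *
      (1 / (n : ℝ) ^ 2 * Real.cos (2 * π * n * (y - β j)) -
        1 / (n : ℝ) ^ 2 * Real.cos (2 * π * n * y))) (lam j * ((Q2 (y - β j) - Q2 y) / 2)) := by
    intro j _
    have h2 := ((cos_sum (y - β j)).sub (cos_sum y)).mul_left (lam j / (2 * π ^ 2))
    have e : lam j / (2 * π ^ 2) * (π ^ 2 * Q2 (y - β j) - π ^ 2 * Q2 y) =
        lam j * ((Q2 (y - β j) - Q2 y) / 2) := by
      have := Real.pi_ne_zero
      field_simp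
    rw [e] at h2
    exact h2
  have h2 := hasSum_sum h1
  unfold Ph
  convert h2 using 1
  funext n
  rw [re_aa, mul_sum]
  refine sum_congr rfl fun j _ => ?_
  ring

theorem summable_inv_sq : Summable (fun n : ℕ => 1 / (n : ℝ) ^ 2) :=
  Real.summable_one_div_nat_pow.2 (by norm_num)

include hb in
theorem Th_summable (y : ℝ) : Summable (fun n : ℕ => (1 / (2 * π ^ 2)) * (1 / (n : ℝ) ^ 2) *
    (ee ((n : ℝ) * y) * AA J lam β b n).re) := by
  refine Summable.of_norm_bounded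
    (summable_inv_sq.mul_left ((1 / (2 * π ^ 2)) * (4 * Lam J lam))) fun n => ?_
  rw [norm_mul, Real.norm_of_nonneg (by positivity), Real.norm_eq_abs]
  have h1 : |(ee ((n : ℝ) * y) * AA J lam β b n).re| ≤ 4 * Lam J lam := by
    refine (Complex.abs_re_le_norm _).trans ?_
    rw [norm_mul, norm_ee, one_mul]
    exact norm_AA J lam β b hb n
  calc _ ≤ (1 / (2 * π ^ 2)) * (1 / (n : ℝ) ^ 2) * (4 * Lam J lam) :=
        mul_le_mul_of_nonneg_left h1 (by positivity)
    _ = _ := by ring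

include hb in
/-- the functional equation -/
theorem Th_eq (hA : ∀ n : ℕ, 1 ≤ n → ¬ b ∣ n → AA J lam β b n = 0) (y : ℝ) :
    Th J lam β b y - b * Th J lam β b (y / b) = Ph J lam β y := by
  have hbR : (2 : ℝ) ≤ b := by exact_mod_cast hb
  have hb0 : (b : ℝ) ≠ 0 := by positivity
  have hbC : (b : ℂ) ≠ 0 := by exact_mod_cast hb0
  set f : ℕ → ℝ := fun n => (1 / (2 * π ^ 2)) * (1 / (n : ℝ) ^ 2) *
    (ee ((n : ℝ) * (y / b)) * AA J lam β b n).re with hf
  have h1 : Th J lam β b (y / b) = ∑' m : ℕ, f (b * m) := by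
    have hinj : Function.Injective (fun m : ℕ => b * m) := fun m m' h =>
      Nat.eq_of_mul_eq_mul_left (by omega) h
    rw [hinj.tsum_eq (f := f)]
    · rfl
    · intro n hn
      rw [Function.mem_support] at hn
      by_contra hcon
      apply hn
      have h2 : ¬ b ∣ n := fun ⟨m, hm⟩ => hcon ⟨m, hm.symm⟩
      have h3 : 1 ≤ n := by
        rcases Nat.eq_zero_or_pos n with h | h
        · subst h
          exact absurd (dvd_zero b) h2
        · exact h
      simp only [hf]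
      rw [hA n h3 h2, mul_zero, Complex.zero_re, mul_zero]
  have h2 : ∀ m : ℕ, f (b * m) = (1 / b) * ((1 / (2 * π ^ 2)) * (1 / (m : ℝ) ^ 2) *
      (ee ((m : ℝ) * y) * ((1 / (b : ℂ)) * AA J lam β b (b * m))).re) := by
    intro m
    simp only [hf]
    have e1 : ((b * m : ℕ) : ℝ) * (y / b) = m * y := by
      push_cast
      field_simp
    rw [e1]
    have e2 : ee ((m : ℝ) * y) * ((1 / (b : ℂ)) * AA J lam β b (b * m)) =
        ((1 / (b : ℝ) : ℝ) : ℂ) * (ee ((m : ℝ) * y) * AA J lam β b (b * m)) := by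
      push_cast
      ring
    rw [e2, Complex.re_ofReal_mul]
    push_cast
    rw [mul_pow]
    ring
  have h3 : b * Th J lam β b (y / b) = ∑' m : ℕ, (1 / (2 * π ^ 2)) * (1 / (m : ℝ) ^ 2) *
      (ee ((m : ℝ) * y) * ((1 / (b : ℂ)) * AA J lam β b (b * m))).re := by
    rw [h1, tsum_congr h2, tsum_mul_left, ← mul_assoc, mul_one_div, div_self hb0, one_mul]
  have h4 : ∀ n : ℕ, (1 / (2 * π ^ 2)) * (1 / (n : ℝ) ^ 2) *
      (ee ((n : ℝ) * y) * ((1 / (b : ℂ)) * AA J lam β b (b * n))).re =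
      (1 / (2 * π ^ 2)) * (1 / (n : ℝ) ^ 2) * (ee ((n : ℝ) * y) * AA J lam β b n).re -
      (1 / (2 * π ^ 2)) * (1 / (n : ℝ) ^ 2) * (ee ((n : ℝ) * y) * aa J lam β n).re := by
    intro n
    rw [AA_rec J lam β b hb n, mul_add, Complex.add_re]
    ring
  rw [h3, tsum_congr h4, (Th_summable J lam β b hb y).tsum_sub (Ph_sum J lam β y).summable,
    (Ph_sum J lam β y).tsum_eq]
  unfold Th
  ring

include hb in
/-- the second representation -/
theorem Th_eq2 (y : ℝ) : Th J lam β b y =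
    ∑' k : ℕ, (1 / (b : ℝ)) ^ k * ∑ j ∈ J, lam j * ((Q2 (y - (b : ℝ) ^ k * β j) - Q2 y) / 2) := by
  set F : ℕ → ℕ → ℝ := fun k n => (1 / (b : ℝ)) ^ k * ((1 / (2 * π ^ 2)) * (1 / (n : ℝ) ^ 2) *
    (ee ((n : ℝ) * y) * aa J lam β ((n : ℝ) * (b : ℝ) ^ k)).re) with hF
  have hsum : Summable (Function.uncurry F) := by
    have h1 := (geo_b b hb).mul_of_nonneg (summable_inv_sq.mul_left
      ((1 / (2 * π ^ 2)) * (2 * Lam J lam))) (fun k => by positivity)
      (fun n => by
        have := Lam_nonneg J lam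
        positivity)
    refine Summable.of_norm_bounded h1 fun p => ?_
    obtain ⟨k, n⟩ := p
    simp only [Function.uncurry, hF]
    rw [norm_mul, Real.norm_of_nonneg (by positivity : (0 : ℝ) ≤ (1 / (b : ℝ)) ^ k)]
    apply mul_le_mul_of_nonneg_left _ (by positivity)
    rw [norm_mul, Real.norm_of_nonneg (by positivity), Real.norm_eq_abs]
    have h2 : |(ee ((n : ℝ) * y) * aa J lam β ((n : ℝ) * (b : ℝ) ^ k)).re| ≤ 2 * Lam J lam := by
      refine (Complex.abs_re_le_norm _).trans ?_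
      rw [norm_mul, norm_ee, one_mul]
      exact norm_aa J lam β _
    calc _ ≤ (1 / (2 * π ^ 2)) * (1 / (n : ℝ) ^ 2) * (2 * Lam J lam) :=
          mul_le_mul_of_nonneg_left h2 (by positivity)
      _ = _ := by ring
  have h1 : Th J lam β b y = ∑' n : ℕ, ∑' k : ℕ, F k n := by
    unfold Th
    refine tsum_congr fun n => ?_
    have h2 : (ee ((n : ℝ) * y) * AA J lam β b n).re =
        ∑' k : ℕ, (1 / (b : ℝ)) ^ k * (ee ((n : ℝ) * y) * aa J lam β ((n : ℝ) * (b : ℝ) ^ k)).re := by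
      unfold AA
      rw [← tsum_mul_left, Complex.re_tsum ((summable_AA J lam β b hb n).mul_left _)]
      refine tsum_congr fun k => ?_
      have e : ee ((n : ℝ) * y) * ((1 / (b : ℂ)) ^ k * aa J lam β ((n : ℝ) * (b : ℝ) ^ k)) =
          (((1 / (b : ℝ)) ^ k : ℝ) : ℂ) * (ee ((n : ℝ) * y) * aa J lam β ((n : ℝ) * (b : ℝ) ^ k)) := by
        push_cast
        ring
      rw [e, Complex.re_ofReal_mul]
    rw [h2, ← tsum_mul_left]
    refine tsum_congr fun k => ?_
    simp only [hF]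
    ring
  rw [h1, hsum.tsum_comm]
  refine tsum_congr fun k => ?_
  simp only [hF]
  rw [tsum_mul_left]
  congr 1
  have h3 := Ph_sum J lam (fun j => (b : ℝ) ^ k * β j) y
  have e : ∀ n : ℕ, aa J lam (fun j => (b : ℝ) ^ k * β j) n = aa J lam β ((n : ℝ) * (b : ℝ) ^ k) := by
    intro n
    unfold aa
    refine sum_congr rfl fun j _ => ?_
    rw [mul_assoc]
  simp only [e] at h3
  rw [h3.tsum_eq]
  rfl

include hb in
theorem Th_lip (y : ℝ) : |Th J lam β b y - Th J lam β b 0| ≤ 2 * Lam J lam * |y| := by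
  have hbR : (2 : ℝ) ≤ b := by exact_mod_cast hb
  have hs : ∀ z : ℝ, Summable (fun k : ℕ => (1 / (b : ℝ)) ^ k *
      ∑ j ∈ J, lam j * ((Q2 (z - (b : ℝ) ^ k * β j) - Q2 z) / 2)) := by
    intro z
    have hQ : ∀ t, |Q2 t| ≤ 1 := by
      intro t
      unfold Q2
      have h1 := Int.fract_nonneg t
      have h2 := (Int.fract_lt_one t).le
      rw [abs_le]
      constructor <;> nlinarith
    refine Summable.of_norm_bounded ((geo_b b hb).mul_left (Lam J lam)) fun k => ?_
    rw [norm_mul, Real.norm_of_nonneg (by positivity : (0 : ℝ) ≤ (1 / (b : ℝ)) ^ k), mul_comm]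
    apply mul_le_mul_of_nonneg_right _ (by positivity)
    unfold Lam
    refine (norm_sum_le _ _).trans (sum_le_sum fun j _ => ?_)
    rw [norm_mul, Real.norm_eq_abs, Real.norm_eq_abs]
    apply mul_le_of_le_one_right (abs_nonneg _)
    have h1 := hQ (z - (b : ℝ) ^ k * β j)
    have h2 := hQ z
    rw [abs_le] at h1 h2 ⊢
    constructor <;> linarith
  rw [Th_eq2 J lam β b hb y, Th_eq2 J lam β b hb 0, ← (hs y).tsum_sub (hs 0)]
  have h1 : ∀ k : ℕ, ‖(1 / (b : ℝ)) ^ k * ∑ j ∈ J, lam j * ((Q2 (y - (b : ℝ) ^ k * β j) - Q2 y) / 2) -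
      (1 / (b : ℝ)) ^ k * ∑ j ∈ J, lam j * ((Q2 (0 - (b : ℝ) ^ k * β j) - Q2 0) / 2)‖ ≤
      Lam J lam * |y| * (1 / (b : ℝ)) ^ k := by
    intro k
    rw [← mul_sub, norm_mul, Real.norm_of_nonneg (by positivity : (0 : ℝ) ≤ (1 / (b : ℝ)) ^ k),
      mul_comm]
    apply mul_le_mul_of_nonneg_right _ (by positivity)
    unfold Lam
    rw [← sum_sub_distrib, sum_mul]
    refine (norm_sum_le _ _).trans (sum_le_sum fun j _ => ?_)
    rw [← mul_sub, norm_mul, Real.norm_eq_abs, Real.norm_eq_abs]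
    apply mul_le_mul_of_nonneg_left _ (abs_nonneg _)
    have h2 := Q2_lip (y - (b : ℝ) ^ k * β j) (0 - (b : ℝ) ^ k * β j)
    have h3 := Q2_lip y 0
    rw [sub_sub_sub_cancel_right, sub_zero] at h2
    rw [sub_zero] at h3
    rw [abs_le] at h2 h3 ⊢
    constructor <;> linarith
  have h2 := tsum_of_norm_bounded ((geo_b b hb).mul_left (Lam J lam * |y|)).hasSum h1
  rw [Real.norm_eq_abs] at h2
  refine h2.trans ?_
  rw [tsum_mul_left, tsum_geometric_of_lt_one (by positivity) (by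
    rw [div_lt_one (by linarith)]
    linarith)]
  have h4 : (1 - 1 / (b : ℝ))⁻¹ ≤ 2 := by
    rw [inv_le_comm₀ _ (by norm_num)]
    · have : 1 / (b : ℝ) ≤ 1 / 2 := one_div_le_one_div_of_le (by norm_num) hbR
      linarith
    · have : 1 / (b : ℝ) ≤ 1 / 2 := one_div_le_one_div_of_le (by norm_num) hbR
      linarith
  have h5 : 0 ≤ Lam J lam * |y| := mul_nonneg (Lam_nonneg J lam) (abs_nonneg _)
  nlinarith

/-- the value at zero minus the mean -/
noncomputable def dd : ℝ := ∑ j ∈ J, lam j * ((if 0 < β j then 1 else 0) - β j)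

theorem Ph_slope (hβ : ∀ j ∈ J, 0 ≤ β j ∧ β j ≤ 1) (y : ℝ) (hy : 0 ≤ y) (hy1 : y < 1)
    (hyβ : ∀ j ∈ J, 0 < β j → y < β j) : Ph J lam β y - Ph J lam β 0 = dd J lam β * y := by
  unfold Ph dd
  rw [← sum_sub_distrib, sum_mul]
  refine sum_congr rfl fun j hj => ?_
  rcases (hβ j hj).1.lt_or_eq with h | h
  · rw [if_pos h]
    have h1 := hyβ j hj h
    have h2 := (hβ j hj).2
    have e1 : Int.fract (y - β j) = y - β j + 1 := by
      rw [Int.fract_eq_iff]
      exact ⟨by linarith, by linarith, ⟨-1, by push_cast; ring⟩⟩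
    have e2 : Int.fract y = y := Int.fract_eq_self.2 ⟨hy, hy1⟩
    have e3 : Int.fract (0 - β j) = 0 - β j + 1 := by
      rw [Int.fract_eq_iff]
      exact ⟨by linarith, by linarith, ⟨-1, by push_cast; ring⟩⟩
    unfold Q2
    rw [e1, e2, e3, Int.fract_zero]
    ring
  · rw [← h, if_neg (lt_irrefl _)]
    simp

include hb in
/-- **the main coefficient does not vanish identically** -/
theorem exists_AA (hβ : ∀ j ∈ J, 0 ≤ β j ∧ β j ≤ 1) (hd : dd J lam β ≠ 0) :
    ∃ n : ℕ, 1 ≤ n ∧ ¬ b ∣ n ∧ AA J lam β b n ≠ 0 := by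
  by_contra hcon
  push Not at hcon
  have hbR : (2 : ℝ) ≤ b := by exact_mod_cast hb
  have hb0 : (0 : ℝ) < b := by linarith
  have heq := Th_eq J lam β b hb hcon
  obtain ⟨y, hy0, hy1, hyβ⟩ : ∃ y : ℝ, 0 < y ∧ y < 1 ∧ ∀ j ∈ J, 0 < β j → y < β j := by
    have h0 : ∀ᶠ y in 𝓝[>] (0 : ℝ), ∀ j ∈ J, 0 < β j → y < β j := by
      rw [eventually_all_finset]
      intro j _
      by_cases h : 0 < β j
      · filter_upwards [mem_nhdsWithin_of_mem_nhds (Iio_mem_nhds h)] with z hz _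
        exact hz
      · exact Eventually.of_forall fun z hz => absurd hz h
    have h1 : ∀ᶠ y in 𝓝[>] (0 : ℝ), 0 < y ∧ y < 1 ∧ ∀ j ∈ J, 0 < β j → y < β j := by
      filter_upwards [self_mem_nhdsWithin, mem_nhdsWithin_of_mem_nhds (Iio_mem_nhds one_pos), h0]
        with z h2 h3 h4
      exact ⟨h2, h3, h4⟩
    exact h1.exists
  set T := fun z => Th J lam β b z - Th J lam β b 0 with hT
  have hstep : ∀ z, 0 ≤ z → z ≤ y → T z - b * T (z / b) = dd J lam β * z := by
    intro z hz hzy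
    have h1 := heq z
    have h2 := heq 0
    rw [zero_div] at h2
    have h3 := Ph_slope J lam β hβ z hz (by linarith) fun j hj hj0 => by
      have := hyβ j hj hj0
      linarith
    simp only [hT]
    rw [← h3, ← h1, ← h2]
    ring
  have hiter : ∀ i : ℕ, T y - (b : ℝ) ^ i * T (y / (b : ℝ) ^ i) = i * (dd J lam β * y) := by
    intro i
    induction i with
    | zero => simp
    | succ i ih =>
      have hbi : (0 : ℝ) < (b : ℝ) ^ i := by positivity
      have h1 := hstep (y / (b : ℝ) ^ i) (by positivity) (by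
        rw [div_le_iff₀ hbi]
        have : 1 ≤ (b : ℝ) ^ i := one_le_pow₀ (by linarith)
        nlinarith)
      have e : y / (b : ℝ) ^ (i + 1) = y / (b : ℝ) ^ i / b := by
        rw [pow_succ, div_div]
      rw [e]
      have e2 : (b : ℝ) ^ i * (T (y / (b : ℝ) ^ i) - b * T (y / (b : ℝ) ^ i / b)) =
          dd J lam β * y := by
        rw [h1]
        field_simp
      push_cast
      rw [pow_succ]
      linear_combination ih + e2
  have hbd : ∀ i : ℕ, (i : ℝ) * |dd J lam β| ≤ 4 * Lam J lam := by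
    intro i
    have hbi : (0 : ℝ) < (b : ℝ) ^ i := by positivity
    have h1 := Th_lip J lam β b hb y
    have h2 := Th_lip J lam β b hb (y / (b : ℝ) ^ i)
    rw [abs_of_pos hy0] at h1
    rw [abs_of_pos (by positivity : 0 < y / (b : ℝ) ^ i)] at h2
    have h3 : (b : ℝ) ^ i * |T (y / (b : ℝ) ^ i)| ≤ 2 * Lam J lam * y := by
      calc (b : ℝ) ^ i * |T (y / (b : ℝ) ^ i)| ≤
            (b : ℝ) ^ i * (2 * Lam J lam * (y / (b : ℝ) ^ i)) :=
            mul_le_mul_of_nonneg_left h2 hbi.le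
        _ = _ := by field_simp
    have h4 : |(i : ℝ) * (dd J lam β * y)| ≤ 4 * Lam J lam * y := by
      rw [← hiter i]
      have h5 := abs_sub (T y) ((b : ℝ) ^ i * T (y / (b : ℝ) ^ i))
      rw [abs_mul, abs_of_pos hbi] at h5
      have h6 : |T y| ≤ 2 * Lam J lam * y := h1
      linarith
    rw [abs_mul, abs_mul, Nat.abs_cast, abs_of_pos hy0, ← mul_assoc] at h4
    exact le_of_mul_le_mul_right h4 hy0
  have hdpos : 0 < |dd J lam β| := abs_pos.2 hd
  obtain ⟨i, hi⟩ := exists_nat_gt (4 * Lam J lam / |dd J lam β|)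
  rw [div_lt_iff₀ hdpos] at hi
  have := hbd i
  linarith

include hb in
theorem exists_CC (hβ : ∀ j ∈ J, 0 ≤ β j ∧ β j ≤ 1) (hd : dd J lam β ≠ 0) :
    ∃ n : ℕ, 1 ≤ n ∧ ¬ b ∣ n ∧ CC J lam β b (n : ℤ) ≠ 0 := by
  obtain ⟨n, h1, h2, h3⟩ := exists_AA J lam β b hb hβ hd
  refine ⟨n, h1, h2, ?_⟩
  have hbC : (b : ℂ) ≠ 0 := by exact_mod_cast (by omega : b ≠ 0)
  have hnC : (n : ℂ) ≠ 0 := by exact_mod_cast (by omega : n ≠ 0)
  have hpi : (π : ℂ) ≠ 0 := by exact_mod_cast Real.pi_ne_zero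
  have e : CC J lam β b (n : ℤ) = -(1 / (2 * π * Complex.I * n)) * AA J lam β b n := by
    unfold CC AA
    rw [← tsum_mul_left]
    refine tsum_congr fun k => ?_
    unfold fhat aa
    rw [mul_sum, mul_sum]
    refine sum_congr rfl fun j _ => ?_
    push_cast
    have hI := Complex.I_ne_zero
    rw [one_div (b : ℂ), inv_pow]
    field_simp
    ring
  rw [e]
  apply mul_ne_zero _ h3
  apply neg_ne_zero.2
  apply div_ne_zero one_ne_zero
  exact mul_ne_zero (mul_ne_zero (mul_ne_zero two_ne_zero hpi) Complex.I_ne_zero) hnC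

end

end Pool.Agent.N304.NT
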